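import Pool.Agent.Helper29.C2.Syn
import Pool.Agent.Helper29.Prefix.QF
import Pool.Agent.Helper20.Spectra.UDef
import Pool.Agent.Helper20.OP.Defs

/-!
# Two-variable sentences with counting quantifiers have first-order spectra
-/

set_option autoImplicit false

namespace Pool.Agent.Helper74.W2O

open FirstOrder FirstOrder.Language Pool.Agent.Helper20.Spectra Pool.Agent.Helper29.C2
  Pool.Agent.Helper29.Prefix

variable {Λ U V : Type}

/-- at least `k` elements satisfy `P` and are outside `S` -/
def AL {A : Type} (P : A → Prop) : ℕ → (A → Prop) → Prop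
  | 0, _ => True
  | k + 1, S => ∃ x, ¬ S x ∧ P x ∧ AL P k (fun y => S y ∨ y = x)

lemma al_iff {A : Type} [Finite A] (P : A → Prop) (k : ℕ) : ∀ S : A → Prop,
    (AL P k S ↔ k ≤ {a | P a ∧ ¬ S a}.ncard) := by
  induction k with
  | zero => intro S; simp [AL]
  | succ k ih =>
    intro S
    have key : ∀ x, P x → ¬ S x → {a | P a ∧ ¬ (S a ∨ a = x)}.ncard + 1 =
        {a | P a ∧ ¬ S a}.ncard := by
      intro x hx hS
      have h1 : {a | P a ∧ ¬ (S a ∨ a = x)} = {a | P a ∧ ¬ S a} \ {x} := by
        ext a
        simp only [Set.mem_ofPred_eq, Set.mem_diff, Set.mem_singleton_iff]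
        tauto
      rw [h1]
      exact Set.ncard_diff_singleton_add_one (show x ∈ {a | P a ∧ ¬ S a} from ⟨hx, hS⟩)
    constructor
    · rintro ⟨x, hS, hx, h⟩
      rw [ih] at h
      have := key x hx hS
      omega
    · intro h
      have h1 : {a | P a ∧ ¬ S a}.Nonempty := by
        rw [← Set.ncard_pos]
        omega
      obtain ⟨x, hx, hS⟩ := h1
      refine ⟨x, hS, hx, ?_⟩
      rw [ih]
      have := key x hx hS
      omega

/-- satisfaction, first-order form of the counting quantifiers -/
def SatA {A : Type} (M : Str Λ U V A) : Fm Λ U V → (Bool → A) → Prop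
  | Fm.eq, e => e true = e false
  | Fm.ord l v, e => M.ord l (e v) (e (!v))
  | Fm.un P v, e => M.un P (e v)
  | Fm.bin E v w, e => M.bin E (e v) (e w)
  | Fm.neg φ, e => ¬ SatA M φ e
  | Fm.and φ ψ, e => SatA M φ e ∧ SatA M ψ e
  | Fm.ex k v φ, e => AL (fun a => SatA M φ (Function.update e v a)) k (fun _ => False)

lemma sat_iff {A : Type} [Finite A] (M : Str Λ U V A) (φ : Fm Λ U V) :
    ∀ e, Sat M φ e ↔ SatA M φ e := by
  induction φ with
  | eq => intro e; exact Iff.rfl
  | ord l v => intro e; exact Iff.rfl
  | un P v => intro e; exact Iff.rfl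
  | bin E v w => intro e; exact Iff.rfl
  | neg φ ih => intro e; exact not_congr (ih e)
  | and φ ψ ih1 ih2 => intro e; exact and_congr (ih1 e) (ih2 e)
  | ex k v φ ih =>
    intro e
    show k ≤ Nat.card {a : A // Sat M φ (Function.update e v a)} ↔
      AL (fun a => SatA M φ (Function.update e v a)) k (fun _ => False)
    rw [al_iff]
    have h1 : {a | SatA M φ (Function.update e v a) ∧ ¬ False} =
        {a | Sat M φ (Function.update e v a)} := by
      ext a
      simp only [Set.mem_ofPred_eq, not_false_eq_true, and_true]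
      exact (ih _).symm
    rw [h1]
    exact Iff.rfl

/-- the structure with background, unary and binary relations -/
def strOf {A : Type} (S : (Lg U (Λ ⊕ V)).Structure A) : Str Λ U V A where
  ord l x y := bOf S (Sum.inl l) x y
  un P x := uOf S P x
  bin E x y := bOf S (Sum.inr E) x y

lemma strOf_mk {A : Type} (M : Str Λ U V A) :
    strOf (mkStr (U := U) (B := Λ ⊕ V) (M := A) M.un (fun r => Sum.elim M.ord M.bin r)) = M := rfl

section U

variable {L : FirstOrder.Language.{0, 0}} {m : ℕ}

lemma udef_const (p : Prop) : UDef L m (fun _ _ _ => p) := by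
  by_cases h : p
  · exact ⟨⊤, fun M _ v => by simp [h]⟩
  · exact ⟨⊥, fun M _ v => by simp [h]⟩

lemma udef_bex {γ : Type} (T : Finset γ)
    {P : γ → ∀ (M : Type) [L.Structure M], (Fin m → M) → Prop} (h : ∀ c, UDef L m (P c)) :
    UDef L m (fun M _ v => ∃ c ∈ T, P c M v) := by
  classical
  induction T using Finset.induction_on with
  | empty =>
    obtain ⟨φ, hφ⟩ := udef_const (L := L) (m := m) False
    exact ⟨φ, fun M _ v => by rw [hφ]; simp⟩
  | insert c T hc ih =>
    obtain ⟨φ, hφ⟩ := (h c).or ih
    exact ⟨φ, fun M _ v => by rw [hφ]; simp⟩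

lemma udef_ball {γ : Type} (T : Finset γ)
    {P : γ → ∀ (M : Type) [L.Structure M], (Fin m → M) → Prop} (h : ∀ c, UDef L m (P c)) :
    UDef L m (fun M _ v => ∀ c ∈ T, P c M v) := by
  obtain ⟨φ, hφ⟩ := (udef_bex T (fun c => (h c).not)).not
  exact ⟨φ, fun M _ v => by rw [hφ]; push Not; rfl⟩

lemma udef_congr {P Q : ∀ (M : Type) [L.Structure M], (Fin m → M) → Prop} (h : UDef L m P)
    (hPQ : ∀ (M : Type) [L.Structure M] (v : Fin m → M), P M v ↔ Q M v) : UDef L m Q := by
  obtain ⟨φ, hφ⟩ := h
  exact ⟨φ, fun M _ v => (hφ M v).trans (hPQ M v)⟩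

end U

lemma satA_udef (φ : Fm Λ U V) : ∀ (m : ℕ) (i : Bool → Fin m),
    UDef (Lg U (Λ ⊕ V)) m (fun M inst v => SatA (strOf inst) φ (fun b => v (i b))) := by
  induction φ with
  | eq =>
    intro m i
    exact UDef.eq (UTerm.var (i true)) (UTerm.var (i false))
  | ord l b =>
    intro m i
    exact UDef.rel2 (L := Lg U (Λ ⊕ V)) (Sum.inl l : Λ ⊕ V) (UTerm.var (i b)) (UTerm.var (i (!b)))
  | un P b =>
    intro m i
    exact UDef.rel1 (L := Lg U (Λ ⊕ V)) (P : U) (UTerm.var (i b))
  | bin E b b' =>
    intro m i
    exact UDef.rel2 (L := Lg U (Λ ⊕ V)) (Sum.inr E : Λ ⊕ V) (UTerm.var (i b)) (UTerm.var (i b'))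
  | neg φ ih =>
    intro m i
    exact (ih m i).not
  | and φ ψ ih1 ih2 =>
    intro m i
    exact (ih1 m i).and (ih2 m i)
  | ex k b φ ih =>
    have key : ∀ (k m : ℕ) (i : Bool → Fin m) (T : Finset (Fin m)),
        UDef (Lg U (Λ ⊕ V)) m (fun M inst v =>
          AL (fun a => SatA (strOf inst) φ (Function.update (fun b => v (i b)) b a)) k
            (fun y => ∃ j ∈ T, y = v j)) := by
      classical
      intro k
      induction k with
      | zero =>
        intro m i T
        exact udef_congr (udef_const True) (fun M _ v => Iff.rfl)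
      | succ k ihk =>
        intro m i T
        have h1 := ih (m + 1) (Function.update (fun b => Fin.castSucc (i b)) b (Fin.last m))
        have h2 := ihk (m + 1) (fun b => Fin.castSucc (i b))
          (insert (Fin.last m) (T.image Fin.castSucc))
        have h3 : UDef (Lg U (Λ ⊕ V)) (m + 1) (fun M _ v => ∃ j ∈ T, v (Fin.last m) =
            v (Fin.castSucc j)) :=
          udef_bex T (fun j => UDef.eq (UTerm.var (Fin.last m)) (UTerm.var (Fin.castSucc j)))
        have h4 := h3.not.and (h1.and h2)
        refine udef_congr (UDef.ex (P := fun M _ v x => (¬ ∃ j ∈ T, x = v j) ∧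
          SatA (strOf (by assumption)) φ (Function.update (fun b => v (i b)) b x) ∧
          AL (fun a => SatA (strOf (by assumption)) φ (Function.update (fun b => v (i b)) b a)) k
            (fun y => (∃ j ∈ T, y = v j) ∨ y = x)) ?_) (fun M _ v => Iff.rfl)
        refine udef_congr h4 (fun M inst v => ?_)
        have e1 : (fun b' => v (Function.update (fun b => Fin.castSucc (i b)) b (Fin.last m) b')) =
            Function.update (fun b => Fin.init v (i b)) b (v (Fin.last m)) := by
          funext b'
          by_cases h : b' = b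
          · subst h
            simp
          · simp [h, Fin.init]
        have e2 : (fun y => ∃ j ∈ insert (Fin.last m) (T.image Fin.castSucc), y = v j) =
            (fun y => (∃ j ∈ T, y = Fin.init v j) ∨ y = v (Fin.last m)) := by
          funext y
          simp only [Finset.mem_insert, Finset.mem_image, exists_eq_or_imp, eq_iff_iff]
          constructor
          · rintro (h | ⟨_, ⟨j, hj, rfl⟩, h⟩)
            · exact Or.inr h
            · exact Or.inl ⟨j, hj, h⟩
          · rintro (⟨j, hj, h⟩ | h)
            · exact Or.inr ⟨_, ⟨j, hj, rfl⟩, h⟩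
            · exact Or.inl h
        rw [e1, e2]
        exact Iff.rfl
    intro m i
    refine udef_congr (key k m i ∅) (fun M inst v => ?_)
    have e : (fun y : M => ∃ j ∈ (∅ : Finset (Fin m)), y = v j) = fun _ => False := by
      funext y
      simp
    rw [e]
    exact Iff.rfl

/-- The set of sizes of the structures with a first-order background condition which satisfy a
two-variable sentence with counting quantifiers is a first-order spectrum. -/
theorem isSpectrum_c2 [Finite Λ] [Finite U] [Finite V] (Φ : Fm Λ U V)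
    (K : ∀ (A : Type), (Λ → A → A → Prop) → Prop)
    (hK : UDef (Lg U (Λ ⊕ V)) 0 (fun M inst _ => K M (strOf (Λ := Λ) (U := U) (V := V) inst).ord)) :
    IsSpectrum {n : ℕ | 1 ≤ n ∧ ∃ (A : Type) (_ : Fintype A) (M : Str Λ U V A),
      Fintype.card A = n ∧ K A M.ord ∧ ∀ e, Sat M Φ e} := by
  have h1 := satA_udef Φ 2 (fun b => if b then 0 else 1)
  have h2 : UDef (Lg U (Λ ⊕ V)) 0 (fun M inst _ => ∀ x y : M, SatA (strOf inst) Φ
      (fun b => if b then x else y)) := by
    refine UDef.all (P := fun M _ v x => ∀ y : M, SatA (strOf (by assumption)) Φ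
      (fun b => if b then x else y)) ?_
    refine UDef.all (P := fun M _ v y => SatA (strOf (by assumption)) Φ
      (fun b => if b then v (Fin.last 0) else y)) ?_
    refine udef_congr h1 (fun M inst v => ?_)
    have e : (fun b : Bool => v (if b then 0 else 1)) = fun b => if b = true then
        Fin.init v (Fin.last 0) else v (Fin.last 1) := by
      funext b
      cases b <;> rfl
    rw [e]
  obtain ⟨φ, hφ⟩ := hK.and h2
  refine ⟨Lg U (Λ ⊕ V), ?_, finite_rel U (Λ ⊕ V), φ, ?_⟩
  · exact Finite.of_injective (β := Empty) (fun x => x.2) (fun x => (x.2 : Empty).elim)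
  · ext n
    constructor
    · rintro ⟨hn, A, hA, M, hc, hKM, hs⟩
      refine ⟨hn, A, mkStr (U := U) (B := Λ ⊕ V) M.un (fun r => Sum.elim M.ord M.bin r), hA, hc, ?_⟩
      refine (@hφ A (mkStr (U := U) (B := Λ ⊕ V) M.un (fun r => Sum.elim M.ord M.bin r))
        default).2 ⟨hKM, fun x y => ?_⟩
      have := Fintype.finite hA
      exact (sat_iff M Φ _).1 (hs _)
    · rintro ⟨hn, A, inst, hA, hc, hr⟩
      obtain ⟨h3, h4⟩ := (hφ A default).1 hr
      refine ⟨hn, A, hA, strOf inst, hc, h3, fun e => ?_⟩
      have := Fintype.finite hA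
      have h5 := (sat_iff (strOf inst) Φ _).2 (h4 (e true) (e false))
      have e' : (fun b : Bool => if b = true then e true else e false) = e := by
        funext b
        cases b <;> rfl
      rwa [e'] at h5

end Pool.Agent.Helper74.W2O
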