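import Pool.Agent.Helper74.W2O.Mod
import Pool.Agent.Helper74.W2O.Fo
import Pool.Agent.Helper20.PV.Ex

/-!
# Two-variable logic with counting quantifiers and two linear orders is universal
-/

set_option autoImplicit false

namespace Pool.Agent.Helper74.W2O

open FirstOrder FirstOrder.Language Pool.Agent.Helper20.Spectra Pool.Agent.Helper29.C2
  Pool.Agent.Helper29.Prefix Pool.Agent.Helper20.PV

section CDef

variable {Λ U V : Type}

/-- conditions given by two-variable formulas with counting quantifiers -/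
def CDef (Λ U V : Type) (P : (A : Type) → Str Λ U V A → (Bool → A) → Prop) : Prop :=
  ∃ φ : Fm Λ U V, ∀ (A : Type) [Finite A] (M : Str Λ U V A) (e : Bool → A), Sat M φ e ↔ P A M e

namespace CDef

lemma congr {P Q : (A : Type) → Str Λ U V A → (Bool → A) → Prop} (h : CDef Λ U V P)
    (hPQ : ∀ (A : Type) [Finite A] (M : Str Λ U V A) (e : Bool → A), P A M e ↔ Q A M e) :
    CDef Λ U V Q := by
  obtain ⟨φ, hφ⟩ := h
  exact ⟨φ, fun A _ M e => (hφ A M e).trans (hPQ A M e)⟩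

lemma not {P : (A : Type) → Str Λ U V A → (Bool → A) → Prop} (h : CDef Λ U V P) :
    CDef Λ U V (fun A M e => ¬ P A M e) := by
  obtain ⟨φ, hφ⟩ := h
  exact ⟨Fm.neg φ, fun A _ M e => not_congr (hφ A M e)⟩

lemma and {P Q : (A : Type) → Str Λ U V A → (Bool → A) → Prop} (h : CDef Λ U V P)
    (h' : CDef Λ U V Q) : CDef Λ U V (fun A M e => P A M e ∧ Q A M e) := by
  obtain ⟨φ, hφ⟩ := h
  obtain ⟨ψ, hψ⟩ := h'
  exact ⟨Fm.and φ ψ, fun A _ M e => and_congr (hφ A M e) (hψ A M e)⟩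

lemma imp {P Q : (A : Type) → Str Λ U V A → (Bool → A) → Prop} (h : CDef Λ U V P)
    (h' : CDef Λ U V Q) : CDef Λ U V (fun A M e => P A M e → Q A M e) :=
  (h.and h'.not).not.congr (fun A _ M e => by tauto)

lemma or {P Q : (A : Type) → Str Λ U V A → (Bool → A) → Prop} (h : CDef Λ U V P)
    (h' : CDef Λ U V Q) : CDef Λ U V (fun A M e => P A M e ∨ Q A M e) :=
  (h.not.and h'.not).not.congr (fun A _ M e => by tauto)

lemma iff {P Q : (A : Type) → Str Λ U V A → (Bool → A) → Prop} (h : CDef Λ U V P)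
    (h' : CDef Λ U V Q) : CDef Λ U V (fun A M e => (P A M e ↔ Q A M e)) :=
  ((h.imp h').and (h'.imp h)).congr (fun A _ M e => by tauto)

lemma eq : CDef Λ U V (fun _ _ e => e true = e false) := ⟨Fm.eq, fun _ _ _ _ => Iff.rfl⟩

lemma ord (l : Λ) : CDef Λ U V (fun _ M e => M.ord l (e true) (e false)) :=
  ⟨Fm.ord l true, fun _ _ _ _ => Iff.rfl⟩

lemma un (P : U) (v : Bool) : CDef Λ U V (fun _ M e => M.un P (e v)) :=
  ⟨Fm.un P v, fun _ _ _ _ => Iff.rfl⟩

lemma bin (E : V) (v w : Bool) : CDef Λ U V (fun _ M e => M.bin E (e v) (e w)) :=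
  ⟨Fm.bin E v w, fun _ _ _ _ => Iff.rfl⟩

lemma const (p : Prop) : CDef Λ U V (fun _ _ _ => p) := by
  have h : CDef Λ U V (fun _ _ e => ¬ (e true = e false ∧ ¬ e true = e false)) :=
    (eq.and eq.not).not
  by_cases hp : p
  · exact h.congr (fun A _ M e => by simp [hp])
  · exact h.not.congr (fun A _ M e => by simp [hp])

lemma ball {γ : Type} (T : Finset γ) {P : γ → (A : Type) → Str Λ U V A → (Bool → A) → Prop}
    (h : ∀ c, CDef Λ U V (P c)) : CDef Λ U V (fun A M e => ∀ c ∈ T, P c A M e) := by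
  classical
  induction T using Finset.induction_on with
  | empty => exact (const True).congr (fun A _ M e => by simp)
  | insert c T hc ih => exact ((h c).and ih).congr (fun A _ M e => by simp)

lemma all_fin {γ : Type} [Finite γ] {P : γ → (A : Type) → Str Λ U V A → (Bool → A) → Prop}
    (h : ∀ c, CDef Λ U V (P c)) : CDef Λ U V (fun A M e => ∀ c, P c A M e) := by
  have := Fintype.ofFinite γ
  exact (ball Finset.univ h).congr (fun A _ M e => by simp)

lemma ex_fin {γ : Type} [Finite γ] {P : γ → (A : Type) → Str Λ U V A → (Bool → A) → Prop}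
    (h : ∀ c, CDef Λ U V (P c)) : CDef Λ U V (fun A M e => ∃ c, P c A M e) :=
  (all_fin (fun c => (h c).not)).not.congr (fun A _ M e => by push Not; rfl)

/-- counting: at least `k` -/
lemma exk {P : (A : Type) → Str Λ U V A → (Bool → A) → Prop} (h : CDef Λ U V P) (k : ℕ)
    (v : Bool) : CDef Λ U V (fun A M e => k ≤ {a | P A M (Function.update e v a)}.ncard) := by
  obtain ⟨φ, hφ⟩ := h
  refine ⟨Fm.ex k v φ, fun A _ M e => ?_⟩
  show k ≤ Nat.card {a : A // Sat M φ (Function.update e v a)} ↔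
    k ≤ {a | P A M (Function.update e v a)}.ncard
  have h1 : {a | P A M (Function.update e v a)} = {a | Sat M φ (Function.update e v a)} := by
    ext a
    exact (hφ A M _).symm
  rw [h1]
  exact Iff.rfl

/-- quantification over the variable `false` -/
lemma exF {P : (A : Type) → Str Λ U V A → A → A → Prop}
    (h : CDef Λ U V (fun A M e => P A M (e true) (e false))) :
    CDef Λ U V (fun A M e => ∃ b, P A M (e true) b) := by
  refine (exk h 1 false).congr (fun A _ M e => ?_)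
  have h1 : {a | P A M (Function.update e false a true) (Function.update e false a false)} =
      {a | P A M (e true) a} := by
    ext a
    simp
  rw [h1]
  exact (Set.ncard_pos (s := {a | P A M (e true) a}))

/-- at most one value of the variable `true` -/
lemma amT {P : (A : Type) → Str Λ U V A → A → A → Prop}
    (h : CDef Λ U V (fun A M e => P A M (e true) (e false))) :
    CDef Λ U V (fun A M e => ∀ a a', P A M a (e false) → P A M a' (e false) → a = a') := by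
  refine (exk h 2 true).not.congr (fun A _ M e => ?_)
  have h1 : {a | P A M (Function.update e true a true) (Function.update e true a false)} =
      {a | P A M a (e false)} := by
    ext a
    simp
  rw [h1, not_le, Nat.lt_succ_iff, Set.ncard_le_one]
  constructor
  · intro h a a' ha ha'
    exact h a ha a' ha'
  · intro h a ha a' ha'
    exact h a a' ha ha'

end CDef

end CDef

variable {Γ : Type}

/-- The axioms as a condition on two elements. -/
def Gd (W : Wang Γ) (A : Type) (M : Str Bool (Lt Γ ⊕ Fin 3) Bool A) (e : Bool → A) : Prop :=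
  (M.bin true (e true) (e false) → M.ord true (e true) (e false)) ∧
  (∀ a a', M.bin true a (e false) → M.bin true a' (e false) → a = a') ∧
  (∀ a a', (¬ ∃ b, M.bin true a b) → (¬ ∃ b, M.bin true a' b) → a = a') ∧
  (M.bin false (e true) (e false) → M.ord false (e true) (e false)) ∧
  (∀ a a', M.bin false a (e false) → M.bin false a' (e false) → a = a') ∧
  (∀ a a', (¬ ∃ b, M.bin false a b) → (¬ ∃ b, M.bin false a' b) → a = a') ∧
  ((M.un (Sum.inr 0) (e true) ↔ M.un (Sum.inr 0) (e false)) →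
    (M.ord true (e true) (e false) ↔ M.ord false (e true) (e false))) ∧
  ((¬ ∃ b, M.bin false b (e true)) → M.un (Sum.inr 0) (e true) ∧
    ∀ ℓ : Lt Γ, M.un (Sum.inl ℓ) (e true) → (ℓ.2.1 = true ∧ ℓ.2.2.2 = 1 ∧ W.c ℓ.1)) ∧
  ((¬ ∃ b, M.bin false (e true) b) → ¬ M.un (Sum.inr 0) (e true) ∧
    ∀ ℓ : Lt Γ, M.un (Sum.inl ℓ) (e true) → (ℓ.2.2.1 = true ∧ ℓ.2.2.2 = 1)) ∧
  (M.bin false (e true) (e false) → (M.un (Sum.inr 0) (e true) ↔ ¬ M.un (Sum.inr 0) (e false))) ∧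
  (M.bin false (e true) (e false) → M.un (Sum.inr 0) (e true) →
    ∀ ℓ ℓ' : Lt Γ, M.un (Sum.inl ℓ) (e true) → M.un (Sum.inl ℓ') (e false) → ℓ = ℓ') ∧
  (M.bin false (e true) (e false) → ¬ M.un (Sum.inr 0) (e true) →
    ∀ ℓ ℓ' : Lt Γ, M.un (Sum.inl ℓ) (e true) → M.un (Sum.inl ℓ') (e false) → hOK W ℓ ℓ') ∧
  ((¬ ∃ b, M.bin true b (e true)) → M.un (Sum.inr 1) (e true)) ∧
  ((¬ ∃ b, M.bin true (e true) b) → M.un (Sum.inr 2) (e true)) ∧
  (M.un (Sum.inr 1) (e true) → M.un (Sum.inr 0) (e true)) ∧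
  (M.un (Sum.inr 2) (e true) → ¬ M.un (Sum.inr 0) (e true)) ∧
  (M.bin true (e true) (e false) → M.un (Sum.inr 1) (e true) →
    ∀ ℓ : Lt Γ, M.un (Sum.inl ℓ) (e true) → ℓ.2.2.1 = false → M.un (Sum.inr 1) (e false)) ∧
  (M.bin true (e true) (e false) → M.un (Sum.inr 1) (e true) →
    ∀ ℓ : Lt Γ, M.un (Sum.inl ℓ) (e true) → ℓ.2.2.1 = true → ¬ M.un (Sum.inr 1) (e false) ∧
      (M.un (Sum.inr 0) (e false) ∨ M.un (Sum.inr 2) (e false))) ∧
  (M.bin true (e true) (e false) → M.un (Sum.inr 0) (e true) → ¬ M.un (Sum.inr 1) (e true) →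
    ¬ M.un (Sum.inr 0) (e false) ∧ ¬ M.un (Sum.inr 2) (e false) ∧
    ∀ ℓ ℓ' : Lt Γ, M.un (Sum.inl ℓ) (e false) → M.un (Sum.inl ℓ') (e true) → vOK W ℓ ℓ') ∧
  (M.bin true (e true) (e false) → ¬ M.un (Sum.inr 0) (e true) → ¬ M.un (Sum.inr 2) (e true) →
    ¬ M.un (Sum.inr 1) (e false) ∧ (M.un (Sum.inr 0) (e false) ∨ M.un (Sum.inr 2) (e false))) ∧
  (M.bin true (e true) (e false) → M.un (Sum.inr 2) (e true) → M.un (Sum.inr 2) (e false)) ∧
  (∀ ℓ : Lt Γ, M.un (Sum.inl ℓ) (e true) → uOK W ℓ) ∧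
  (M.un (Sum.inr 1) (e true) → ∀ ℓ : Lt Γ, M.un (Sum.inl ℓ) (e true) → W.b ℓ.1) ∧
  (M.un (Sum.inr 2) (e true) → ∀ ℓ : Lt Γ, M.un (Sum.inl ℓ) (e true) → W.t ℓ.1) ∧
  (∃ ℓ : Lt Γ, M.un (Sum.inl ℓ) (e true)) ∧
  (∀ ℓ ℓ' : Lt Γ, M.un (Sum.inl ℓ) (e true) → M.un (Sum.inl ℓ') (e true) → ℓ = ℓ')

lemma cdef_gd [Finite Γ] (W : Wang Γ) : CDef Bool (Lt Γ ⊕ Fin 3) Bool (Gd W) := by
  have bT : ∀ E : Bool, CDef Bool (Lt Γ ⊕ Fin 3) Bool (fun A M e => M.bin E (e true) (e false)) :=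
    fun E => CDef.bin E true false
  have a1 : ∀ E : Bool, CDef Bool (Lt Γ ⊕ Fin 3) Bool (fun A M e => ∀ a a',
      M.bin E a (e false) → M.bin E a' (e false) → a = a') := fun E =>
    CDef.amT (P := fun A M a b => M.bin E a b) (bT E)
  have no : ∀ E : Bool, CDef Bool (Lt Γ ⊕ Fin 3) Bool (fun A M e => ¬ ∃ b, M.bin E (e true) b) :=
    fun E => (CDef.exF (P := fun A M a b => M.bin E a b) (bT E)).not
  have ni : ∀ E : Bool, CDef Bool (Lt Γ ⊕ Fin 3) Bool (fun A M e => ¬ ∃ b, M.bin E b (e true)) :=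
    fun E => (CDef.exF (P := fun A M a b => M.bin E b a) (CDef.bin E false true)).not
  have a2 : ∀ E : Bool, CDef Bool (Lt Γ ⊕ Fin 3) Bool (fun A M e => ∀ a a',
      (¬ ∃ b, M.bin E a b) → (¬ ∃ b, M.bin E a' b) → a = a') := fun E =>
    CDef.amT (P := fun A M a _ => ¬ ∃ b, M.bin E a b) (no E)
  have un : ∀ (P : Lt Γ ⊕ Fin 3) (v : Bool), CDef Bool (Lt Γ ⊕ Fin 3) Bool
      (fun A M e => M.un P (e v)) := fun P v => CDef.un P v
  have l1 : ∀ (Q : Lt Γ → Prop) (v : Bool), CDef Bool (Lt Γ ⊕ Fin 3) Bool (fun A M e =>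
      ∀ ℓ : Lt Γ, M.un (Sum.inl ℓ) (e v) → Q ℓ) := fun Q v =>
    CDef.all_fin (fun ℓ => (un (Sum.inl ℓ) v).imp (CDef.const (Q ℓ)))
  have l2 : ∀ (Q : Lt Γ → Lt Γ → Prop) (v w : Bool), CDef Bool (Lt Γ ⊕ Fin 3) Bool (fun A M e =>
      ∀ ℓ ℓ' : Lt Γ, M.un (Sum.inl ℓ) (e v) → M.un (Sum.inl ℓ') (e w) → Q ℓ ℓ') := fun Q v w =>
    CDef.all_fin (fun ℓ => CDef.all_fin (fun ℓ' => (un (Sum.inl ℓ) v).imp
      ((un (Sum.inl ℓ') w).imp (CDef.const (Q ℓ ℓ')))))
  unfold Gd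
  refine CDef.and ((bT true).imp (CDef.ord true)) ?_
  refine CDef.and (a1 true) ?_
  refine CDef.and (a2 true) ?_
  refine CDef.and ((bT false).imp (CDef.ord false)) ?_
  refine CDef.and (a1 false) ?_
  refine CDef.and (a2 false) ?_
  refine CDef.and (((un _ _).iff (un _ _)).imp ((CDef.ord true).iff (CDef.ord false))) ?_
  refine CDef.and ((ni false).imp ((un _ _).and (l1 (fun ℓ => ℓ.2.1 = true ∧ ℓ.2.2.2 = 1 ∧
    W.c ℓ.1) true))) ?_
  refine CDef.and ((no false).imp ((un _ _).not.and (l1 (fun ℓ => ℓ.2.2.1 = true ∧ ℓ.2.2.2 = 1)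
    true))) ?_
  refine CDef.and ((bT false).imp ((un _ _).iff (un _ _).not)) ?_
  refine CDef.and ((bT false).imp ((un _ _).imp (l2 (fun ℓ ℓ' => ℓ = ℓ') true false))) ?_
  refine CDef.and ((bT false).imp ((un _ _).not.imp (l2 (fun ℓ ℓ' => hOK W ℓ ℓ') true false))) ?_
  refine CDef.and ((ni true).imp (un _ _)) ?_
  refine CDef.and ((no true).imp (un _ _)) ?_
  refine CDef.and ((un _ _).imp (un _ _)) ?_
  refine CDef.and ((un _ _).imp (un _ _).not) ?_
  refine CDef.and ((bT true).imp ((un _ _).imp (CDef.all_fin (fun ℓ => (un _ _).imp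
    ((CDef.const _).imp (un _ _)))))) ?_
  refine CDef.and ((bT true).imp ((un _ _).imp (CDef.all_fin (fun ℓ => (un _ _).imp
    ((CDef.const _).imp ((un _ _).not.and ((un _ _).or (un _ _)))))))) ?_
  refine CDef.and ((bT true).imp ((un _ _).imp ((un _ _).not.imp ((un _ _).not.and
    ((un _ _).not.and (l2 (fun ℓ ℓ' => vOK W ℓ ℓ') false true)))))) ?_
  refine CDef.and ((bT true).imp ((un _ _).not.imp ((un _ _).not.imp ((un _ _).not.and
    ((un _ _).or (un _ _)))))) ?_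
  refine CDef.and ((bT true).imp ((un _ _).imp (un _ _))) ?_
  refine CDef.and (l1 (fun ℓ => uOK W ℓ) true) ?_
  refine CDef.and ((un _ _).imp (l1 (fun ℓ => W.b ℓ.1) true)) ?_
  refine CDef.and ((un _ _).imp (l1 (fun ℓ => W.t ℓ.1) true)) ?_
  refine CDef.and (CDef.ex_fin (fun ℓ => un (Sum.inl ℓ) true)) ?_
  exact l2 (fun ℓ ℓ' => ℓ = ℓ') true true

/-- a pair as an assignment -/
def pr {A : Type} (x y : A) : Bool → A := fun b => if b then x else y

lemma gd_iff (W : Wang Γ) {A : Type} (M : Str Bool (Lt Γ ⊕ Fin 3) Bool A) :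
    (∀ e, Gd W A M e) ↔ ∃ lab : A → Lt Γ, (∀ ℓ x, M.un (Sum.inl ℓ) x ↔ lab x = ℓ) ∧
      Ax W (M.ord true) (M.ord false) (M.bin true) (M.bin false) lab (M.un (Sum.inr 0))
        (M.un (Sum.inr 1)) (M.un (Sum.inr 2)) := by
  constructor
  · intro h
    have hex : ∀ x, ∃ ℓ : Lt Γ, M.un (Sum.inl ℓ) x := fun x => by
      obtain ⟨_, _, _, _, _, _, _, _, _, _, _, _, _, _, _, _, _, _, _, _, _, _, _, _, h25, _⟩ :=
        h (pr x x)
      exact h25
    choose lab hlab using hex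
    refine ⟨lab, fun ℓ x => ⟨fun hx => ?_, fun hx => by rw [← hx]; exact hlab x⟩, ?_⟩
    · obtain ⟨_, _, _, _, _, _, _, _, _, _, _, _, _, _, _, _, _, _, _, _, _, _, _, _, _, h26⟩ :=
        h (pr x x)
      exact h26 _ _ (hlab x) hx
    · have h' : ∀ x y, Gd W A M (pr x y) := fun x y => h _
      constructor
      · intro x y
        exact (h' x y).1
      · intro x x' y hx hx'
        exact (h' x y).2.1 x x' hx hx'
      · intro x x' hx hx'
        exact (h' x x).2.2.1 x x' (fun ⟨b, hb⟩ => hx b hb) (fun ⟨b, hb⟩ => hx' b hb)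
      · intro x y
        exact (h' x y).2.2.2.1
      · intro x x' y hx hx'
        exact (h' x y).2.2.2.2.1 x x' hx hx'
      · intro x x' hx hx'
        exact (h' x x).2.2.2.2.2.1 x x' (fun ⟨b, hb⟩ => hx b hb) (fun ⟨b, hb⟩ => hx' b hb)
      · intro x y
        exact (h' x y).2.2.2.2.2.2.1
      · intro x hx
        have h1 := (h' x x).2.2.2.2.2.2.2.1 (fun ⟨b, hb⟩ => hx b hb)
        exact ⟨h1.1, h1.2 _ (hlab x)⟩
      · intro x hx
        have h1 := (h' x x).2.2.2.2.2.2.2.2.1 (fun ⟨b, hb⟩ => hx b hb)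
        exact ⟨h1.1, h1.2 _ (hlab x)⟩
      · intro x y
        exact (h' x y).2.2.2.2.2.2.2.2.2.1
      · intro x y hxy hx
        exact (h' x y).2.2.2.2.2.2.2.2.2.2.1 hxy hx _ _ (hlab x) (hlab y)
      · intro x y hxy hx
        exact (h' x y).2.2.2.2.2.2.2.2.2.2.2.1 hxy hx _ _ (hlab x) (hlab y)
      · intro x hx
        exact (h' x x).2.2.2.2.2.2.2.2.2.2.2.2.1 (fun ⟨b, hb⟩ => hx b hb)
      · intro x hx
        exact (h' x x).2.2.2.2.2.2.2.2.2.2.2.2.2.1 (fun ⟨b, hb⟩ => hx b hb)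
      · intro x
        exact (h' x x).2.2.2.2.2.2.2.2.2.2.2.2.2.2.1
      · intro x
        exact (h' x x).2.2.2.2.2.2.2.2.2.2.2.2.2.2.2.1
      · intro x y hxy hx hla
        exact (h' x y).2.2.2.2.2.2.2.2.2.2.2.2.2.2.2.2.1 hxy hx _ (hlab x) hla
      · intro x y hxy hx hla
        exact (h' x y).2.2.2.2.2.2.2.2.2.2.2.2.2.2.2.2.2.1 hxy hx _ (hlab x) hla
      · intro x y hxy hx hx'
        have h1 := (h' x y).2.2.2.2.2.2.2.2.2.2.2.2.2.2.2.2.2.2.1 hxy hx hx'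
        exact ⟨h1.1, h1.2.1, h1.2.2 _ _ (hlab y) (hlab x)⟩
      · intro x y
        exact (h' x y).2.2.2.2.2.2.2.2.2.2.2.2.2.2.2.2.2.2.2.1
      · intro x y
        exact (h' x y).2.2.2.2.2.2.2.2.2.2.2.2.2.2.2.2.2.2.2.2.1
      · intro x
        exact (h' x x).2.2.2.2.2.2.2.2.2.2.2.2.2.2.2.2.2.2.2.2.2.1 _ (hlab x)
      · intro x hx
        exact (h' x x).2.2.2.2.2.2.2.2.2.2.2.2.2.2.2.2.2.2.2.2.2.2.1 hx _ (hlab x)
      · intro x hx
        exact (h' x x).2.2.2.2.2.2.2.2.2.2.2.2.2.2.2.2.2.2.2.2.2.2.2.1 hx _ (hlab x)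
  · rintro ⟨lab, hlab, H⟩ e
    refine ⟨H.s1l _ _, fun a a' => H.s1i _ _ _, fun a a' h h' => H.s1e _ _ (fun y hy => h ⟨y, hy⟩)
      (fun y hy => h' ⟨y, hy⟩), H.s2l _ _, fun a a' => H.s2i _ _ _, fun a a' h h' => H.s2e _ _
      (fun y hy => h ⟨y, hy⟩) (fun y hy => h' ⟨y, hy⟩), H.ag _ _, fun h => ?_, fun h => ?_,
      H.a2 _ _, fun h1 h2 ℓ ℓ' h3 h4 => ?_, fun h1 h2 ℓ ℓ' h3 h4 => ?_,
      fun h => H.f1 _ (fun y hy => h ⟨y, hy⟩), fun h => H.e1 _ (fun y hy => h ⟨y, hy⟩), H.tA _,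
      H.tZ _, fun h1 h2 ℓ h3 h4 => ?_, fun h1 h2 ℓ h3 h4 => ?_, fun h1 h2 h3 => ?_, H.bb _ _,
      H.zz _ _, fun ℓ h1 => ?_, fun h1 ℓ h2 => ?_, fun h1 ℓ h2 => ?_,
      ⟨lab (e true), (hlab _ _).2 rfl⟩, fun ℓ ℓ' h1 h2 => ?_⟩
    · have h1 := H.f2 _ (fun y hy => h ⟨y, hy⟩)
      refine ⟨h1.1, fun ℓ hℓ => ?_⟩
      rw [hlab] at hℓ
      rw [← hℓ]
      exact h1.2
    · have h1 := H.e2 _ (fun y hy => h ⟨y, hy⟩)
      refine ⟨h1.1, fun ℓ hℓ => ?_⟩
      rw [hlab] at hℓ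
      rw [← hℓ]
      exact h1.2
    · rw [hlab] at h3 h4
      rw [← h3, ← h4]
      exact H.p2 _ _ h1 h2
    · rw [hlab] at h3 h4
      rw [← h3, ← h4]
      exact H.h2 _ _ h1 h2
    · rw [hlab] at h3
      rw [← h3] at h4
      exact H.aa _ _ h1 h2 h4
    · rw [hlab] at h3
      rw [← h3] at h4
      exact H.ab _ _ h1 h2 h4
    · have h4 := H.tt _ _ h1 h2 h3
      refine ⟨h4.1, h4.2.1, fun ℓ ℓ' h5 h6 => ?_⟩
      rw [hlab] at h5 h6
      rw [← h5, ← h6]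
      exact h4.2.2
    · rw [hlab] at h1
      rw [← h1]
      exact H.u _
    · rw [hlab] at h2
      rw [← h2]
      exact H.b _ h1
    · rw [hlab] at h2
      rw [← h2]
      exact H.t _ h1
    · rw [hlab] at h1 h2
      rw [← h1, ← h2]

/-- `A` is the set of the sizes of the finite structures with `k` strict linear orders and further
unary and binary relations which satisfy a two-variable sentence with counting quantifiers -/
def C2Ord (k : ℕ) (A : Set ℕ) : Prop :=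
  ∃ (U V : Type) (_ : Finite U) (_ : Finite V) (Φ : Fm (Fin k) U V),
    A = {n : ℕ | 1 ≤ n ∧ ∃ (X : Type) (_ : Fintype X) (M : Str (Fin k) U V X),
      Fintype.card X = n ∧ (∀ l, Lin (M.ord l)) ∧ ∀ e, Sat M Φ e}

/-- renaming of the background symbols -/
def rnm {Λ Λ' U V : Type} (g : Λ → Λ') : Fm Λ U V → Fm Λ' U V
  | Fm.eq => Fm.eq
  | Fm.ord l v => Fm.ord (g l) v
  | Fm.un P v => Fm.un P v
  | Fm.bin E v w => Fm.bin E v w
  | Fm.neg φ => Fm.neg (rnm g φ)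
  | Fm.and φ ψ => Fm.and (rnm g φ) (rnm g ψ)
  | Fm.ex k v φ => Fm.ex k v (rnm g φ)

lemma sat_rnm {Λ Λ' U V A : Type} (g : Λ → Λ') (M : Str Λ' U V A) (φ : Fm Λ U V) :
    ∀ e, Sat M (rnm g φ) e ↔ Sat (⟨fun l => M.ord (g l), M.un, M.bin⟩ : Str Λ U V A) φ e := by
  induction φ with
  | eq => intro e; exact Iff.rfl
  | ord l v => intro e; exact Iff.rfl
  | un P v => intro e; exact Iff.rfl
  | bin E v w => intro e; exact Iff.rfl
  | neg φ ih => intro e; exact not_congr (ih e)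
  | and φ ψ ih1 ih2 => intro e; exact and_congr (ih1 e) (ih2 e)
  | ex k v φ ih =>
    intro e
    show k ≤ Nat.card {a : A // Sat M (rnm g φ) (Function.update e v a)} ↔
      k ≤ Nat.card {a : A // Sat (⟨fun l => M.ord (g l), M.un, M.bin⟩ : Str Λ U V A) φ
        (Function.update e v a)}
    simp only [ih]

/-- Two linear orders: all tilings can be coded. -/
theorem univ_two : Univ (C2Ord 2) := by
  intro Θ
  have hfin : Finite {θ : ℕ × ℕ × ℕ × ℕ // θ ∈ Θ} := inferInstance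
  obtain ⟨φ, hφ⟩ := cdef_gd (blockWang Θ)
  let g : Bool → Fin 2 := fun b => if b then 0 else 1
  refine ⟨2 * Polynomial.X ^ 2, _, ⟨_, _, inferInstance, inferInstance, rnm g φ, rfl⟩,
    fun N hN => ?_⟩
  rw [mem_squareSizes_iff Θ hN]
  have hev : Polynomial.eval N (2 * Polynomial.X ^ 2 : Polynomial ℕ) = 2 * (N * N) := by
    simp [sq]
  rw [hev]
  have hNN : 1 ≤ N * N := Nat.mul_pos hN hN
  have key := sizes_iff (blockWang Θ) (2 * (N * N)) (by omega)
  have h1 : Tiles (blockWang Θ) N ↔ ∃ K, 1 ≤ K ∧ 2 * (N * N) = 2 * (K * K) ∧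
      Tiles (blockWang Θ) K := by
    constructor
    · intro h
      exact ⟨N, hN, rfl, h⟩
    · rintro ⟨K, hK, he, h⟩
      have h2 : N * N = K * K := by omega
      rw [Nat.mul_self_inj.1 h2]
      exact h
  rw [h1, ← key]
  constructor
  · rintro ⟨X, hX, l1, l2, s1, s2, lab, T, A, Z, hc, hl1, hl2, H⟩
    refine ⟨by omega, X, hX, ⟨fun l => if l = 0 then l1 else l2, fun u x => Sum.elim
      (fun ℓ => lab x = ℓ) (fun i => if i = 0 then T x else if i = 1 then A x else Z x) u,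
      fun E => if E = true then s1 else s2⟩, hc, fun l => ?_, fun e => ?_⟩
    · fin_cases l
      · exact hl1
      · exact hl2
    · have := Fintype.finite hX
      rw [sat_rnm, hφ]
      refine (gd_iff (blockWang Θ) _).2 ⟨lab, fun ℓ x => Iff.rfl, ?_⟩ e
      exact H
  · rintro ⟨_, X, hX, M, hc, hl, hs⟩
    have := Fintype.finite hX
    have h2 : ∀ e, Gd (blockWang Θ) X ⟨fun l => M.ord (g l), M.un, M.bin⟩ e := fun e => by
      rw [← hφ, ← sat_rnm]
      exact hs e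
    obtain ⟨lab, _, H⟩ := (gd_iff (blockWang Θ) _).1 h2
    exact ⟨X, hX, _, _, _, _, lab, _, _, _, hc, hl 0, hl 1, H⟩

lemma C2Ord.isSpectrum {k : ℕ} {A : Set ℕ} (hA : C2Ord k A) : IsSpectrum A := by
  obtain ⟨U, V, hU, hV, Φ, rfl⟩ := hA
  refine isSpectrum_c2 Φ (fun _ ord => ∀ l, Lin (ord l)) ?_
  have h1 : ∀ l : Fin k, UDef (Lg U (Fin k ⊕ V)) 0 (fun M inst _ =>
      (∀ x : M, ¬ (strOf (Λ := Fin k) (U := U) (V := V) inst).ord l x x) ∧
      (∀ x y z : M, (strOf (Λ := Fin k) (U := U) (V := V) inst).ord l x y →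
        (strOf (Λ := Fin k) (U := U) (V := V) inst).ord l y z →
        (strOf (Λ := Fin k) (U := U) (V := V) inst).ord l x z) ∧
      (∀ x y : M, ¬ x = y → (strOf (Λ := Fin k) (U := U) (V := V) inst).ord l x y ∨
        (strOf (Λ := Fin k) (U := U) (V := V) inst).ord l y x)) := by
    intro l
    refine UDef.and ?_ (UDef.and ?_ ?_)
    · refine UDef.all (P := fun M _ v x => ¬ Structure.RelMap (L := Lg U (Fin k ⊕ V)) (n := 2)
        (Sum.inl l : Fin k ⊕ V) ![x, x]) ?_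
      exact (UDef.rel2 (L := Lg U (Fin k ⊕ V)) (Sum.inl l : Fin k ⊕ V) (UTerm.var _)
        (UTerm.var _)).not
    · refine UDef.all (P := fun M _ v x => ∀ y z : M,
        Structure.RelMap (L := Lg U (Fin k ⊕ V)) (n := 2) (Sum.inl l : Fin k ⊕ V) ![x, y] →
        Structure.RelMap (L := Lg U (Fin k ⊕ V)) (n := 2) (Sum.inl l : Fin k ⊕ V) ![y, z] →
        Structure.RelMap (L := Lg U (Fin k ⊕ V)) (n := 2) (Sum.inl l : Fin k ⊕ V) ![x, z]) ?_
      refine UDef.all (P := fun M _ v y => ∀ z : M,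
        Structure.RelMap (L := Lg U (Fin k ⊕ V)) (n := 2) (Sum.inl l : Fin k ⊕ V)
          ![v (Fin.last 0), y] →
        Structure.RelMap (L := Lg U (Fin k ⊕ V)) (n := 2) (Sum.inl l : Fin k ⊕ V) ![y, z] →
        Structure.RelMap (L := Lg U (Fin k ⊕ V)) (n := 2) (Sum.inl l : Fin k ⊕ V)
          ![v (Fin.last 0), z]) ?_
      refine UDef.all (P := fun M _ v z =>
        Structure.RelMap (L := Lg U (Fin k ⊕ V)) (n := 2) (Sum.inl l : Fin k ⊕ V)
          ![v 0, v 1] →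
        Structure.RelMap (L := Lg U (Fin k ⊕ V)) (n := 2) (Sum.inl l : Fin k ⊕ V) ![v 1, z] →
        Structure.RelMap (L := Lg U (Fin k ⊕ V)) (n := 2) (Sum.inl l : Fin k ⊕ V)
          ![v 0, z]) ?_
      exact (UDef.rel2 (L := Lg U (Fin k ⊕ V)) (Sum.inl l : Fin k ⊕ V) (UTerm.var (0 : Fin 3))
        (UTerm.var (1 : Fin 3))).imp ((UDef.rel2 (L := Lg U (Fin k ⊕ V)) (Sum.inl l : Fin k ⊕ V)
          (UTerm.var (1 : Fin 3)) (UTerm.var (2 : Fin 3))).imp
          (UDef.rel2 (L := Lg U (Fin k ⊕ V)) (Sum.inl l : Fin k ⊕ V) (UTerm.var (0 : Fin 3))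
            (UTerm.var (2 : Fin 3))))
    · refine UDef.all (P := fun M _ v x => ∀ y : M, ¬ x = y →
        Structure.RelMap (L := Lg U (Fin k ⊕ V)) (n := 2) (Sum.inl l : Fin k ⊕ V) ![x, y] ∨
        Structure.RelMap (L := Lg U (Fin k ⊕ V)) (n := 2) (Sum.inl l : Fin k ⊕ V) ![y, x]) ?_
      refine UDef.all (P := fun M _ v y => ¬ v 0 = y →
        Structure.RelMap (L := Lg U (Fin k ⊕ V)) (n := 2) (Sum.inl l : Fin k ⊕ V)
          ![v 0, y] ∨
        Structure.RelMap (L := Lg U (Fin k ⊕ V)) (n := 2) (Sum.inl l : Fin k ⊕ V)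
          ![y, v 0]) ?_
      exact (UDef.eq (UTerm.var (0 : Fin 2)) (UTerm.var (1 : Fin 2))).not.imp
        ((UDef.rel2 (L := Lg U (Fin k ⊕ V)) (Sum.inl l : Fin k ⊕ V) (UTerm.var (0 : Fin 2))
          (UTerm.var (1 : Fin 2))).or (UDef.rel2 (L := Lg U (Fin k ⊕ V))
          (Sum.inl l : Fin k ⊕ V) (UTerm.var (1 : Fin 2)) (UTerm.var (0 : Fin 2))))
  refine udef_congr (udef_ball Finset.univ h1) (fun M inst v => ?_)
  constructor
  · intro h l
    obtain ⟨h1, h2, h3⟩ := h l (Finset.mem_univ l)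
    exact ⟨h1, h2, h3⟩
  · intro h l _
    exact ⟨(h l).irr, (h l).tr, (h l).tot⟩

/-- **Two linear orders.** -/
theorem two_orders :
    (∃ U : Set ℕ, C2Ord 2 U ∧ ∀ A : Set ℕ, IsSpectrum A ↔
      ∃ h : Polynomial ℕ, A = {n : ℕ | 1 ≤ n ∧ h.eval n ∈ U}) ∧
    ((∀ A : Set ℕ, C2Ord 2 A → IsRudimentary A) ↔
      ∀ A : Set ℕ, IsSpectrum A ↔ (IsRudimentary A ∧ 0 ∉ A)) :=
  wild_of_univ univ_two (fun _ hA => hA.isSpectrum)

end Pool.Agent.Helper74.W2O
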