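import Pool.Agent.Helper74.W2O.Word

/-!
# Two linear orders and two-variable conditions with counting: axioms, models, words
-/

set_option autoImplicit false

namespace Pool.Agent.Helper74.W2O

open Pool.Agent.Helper29.Prefix

variable {Γ : Type}

/-- strict linear orders -/
structure Lin {M : Type} (l : M → M → Prop) : Prop where
  irr : ∀ x, ¬ l x x
  tr : ∀ x y z, l x y → l y z → l x z
  tot : ∀ x y, x ≠ y → l x y ∨ l y x

/-- The axioms. -/
structure Ax (W : Wang Γ) {M : Type} (l1 l2 s1 s2 : M → M → Prop) (lab : M → Lt Γ)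
    (T A Z : M → Prop) : Prop where
  s1l : ∀ x y, s1 x y → l1 x y
  s1i : ∀ x x' y, s1 x y → s1 x' y → x = x'
  s1e : ∀ x x', (∀ y, ¬ s1 x y) → (∀ y, ¬ s1 x' y) → x = x'
  s2l : ∀ x y, s2 x y → l2 x y
  s2i : ∀ x x' y, s2 x y → s2 x' y → x = x'
  s2e : ∀ x x', (∀ y, ¬ s2 x y) → (∀ y, ¬ s2 x' y) → x = x'
  ag : ∀ x y, (T x ↔ T y) → (l1 x y ↔ l2 x y)
  f2 : ∀ x, (∀ y, ¬ s2 y x) → T x ∧ (lab x).2.1 = true ∧ (lab x).2.2.2 = 1 ∧ W.c (lab x).1
  e2 : ∀ x, (∀ y, ¬ s2 x y) → ¬ T x ∧ (lab x).2.2.1 = true ∧ (lab x).2.2.2 = 1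
  a2 : ∀ x y, s2 x y → (T x ↔ ¬ T y)
  p2 : ∀ x y, s2 x y → T x → lab x = lab y
  h2 : ∀ x y, s2 x y → ¬ T x → hOK W (lab x) (lab y)
  f1 : ∀ x, (∀ y, ¬ s1 y x) → A x
  e1 : ∀ x, (∀ y, ¬ s1 x y) → Z x
  tA : ∀ x, A x → T x
  tZ : ∀ x, Z x → ¬ T x
  aa : ∀ x y, s1 x y → A x → (lab x).2.2.1 = false → A y
  ab : ∀ x y, s1 x y → A x → (lab x).2.2.1 = true → ¬ A y ∧ (T y ∨ Z y)
  tt : ∀ x y, s1 x y → T x → ¬ A x → ¬ T y ∧ ¬ Z y ∧ vOK W (lab y) (lab x)
  bb : ∀ x y, s1 x y → ¬ T x → ¬ Z x → ¬ A y ∧ (T y ∨ Z y)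
  zz : ∀ x y, s1 x y → Z x → Z y
  u : ∀ x, uOK W (lab x)
  b : ∀ x, A x → W.b (lab x).1
  t : ∀ x, Z x → W.t (lab x).1

/-- the number of `j < i` with `P j` -/
noncomputable def cnt (P : ℕ → Prop) (i : ℕ) : ℕ := @Nat.count P (Classical.decPred P) i

lemma cnt_zero {P : ℕ → Prop} : cnt P 0 = 0 := rfl

lemma cnt_pos {P : ℕ → Prop} {i : ℕ} (h : P i) : cnt P (i + 1) = cnt P i + 1 := by
  unfold cnt
  rw [Nat.count_succ, if_pos h]

lemma cnt_neg {P : ℕ → Prop} {i : ℕ} (h : ¬ P i) : cnt P (i + 1) = cnt P i := by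
  unfold cnt
  rw [Nat.count_succ, if_neg h, Nat.add_zero]

lemma cnt_eq_ncard (P : ℕ → Prop) (i : ℕ) : cnt P i = {j | j < i ∧ P j}.ncard := by
  unfold cnt
  let _ := Classical.decPred P
  rw [Nat.count_eq_card_filter_range, ← Set.ncard_coe_finset]
  congr 1
  ext j
  simp

section Enum

variable {M : Type} [Fintype M]

/-- ranks of the elements of a finite linear order -/
lemma exists_rank {l : M → M → Prop} (hl : Lin l) : ∃ rk : M → ℕ, (∀ x, rk x < Fintype.card M) ∧
    (∀ x y, rk x = rk y → x = y) ∧ (∀ x y, l x y ↔ rk x < rk y) ∧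
    ∀ i, i < Fintype.card M → ∃ x, rk x = i := by
  classical
  let rk : M → ℕ := fun x => (Finset.univ.filter (fun y => l y x)).card
  have h1 : ∀ x y, l x y → rk x < rk y := by
    intro x y hxy
    refine Finset.card_lt_card ?_
    rw [Finset.ssubset_iff_of_subset]
    · exact ⟨x, by simp [hxy], by simp [hl.irr]⟩
    · intro z hz
      rw [Finset.mem_filter] at hz ⊢
      exact ⟨hz.1, hl.tr _ _ _ hz.2 hxy⟩
  have h2 : ∀ x y, l x y ↔ rk x < rk y := by
    intro x y
    refine ⟨h1 x y, fun h => ?_⟩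
    by_cases hxy : x = y
    · rw [hxy] at h; omega
    · rcases hl.tot x y hxy with h' | h'
      · exact h'
      · have := h1 y x h'; omega
  have h3 : ∀ x y, rk x = rk y → x = y := by
    intro x y h
    by_contra hxy
    rcases hl.tot x y hxy with h' | h'
    · have := h1 x y h'; omega
    · have := h1 y x h'; omega
  have h4 : ∀ x, rk x < Fintype.card M := by
    intro x
    refine Finset.card_lt_univ_of_notMem (x := x) ?_
    simp [hl.irr]
  refine ⟨rk, h4, h3, h2, fun i hi => ?_⟩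
  have h5 : Function.Injective (fun x => (⟨rk x, h4 x⟩ : Fin (Fintype.card M))) := by
    intro x y h
    exact h3 x y (by simpa using h)
  have h6 := (Fintype.bijective_iff_injective_and_card
    (fun x => (⟨rk x, h4 x⟩ : Fin (Fintype.card M)))).2 ⟨h5, by simp⟩
  obtain ⟨x, hx⟩ := h6.2 ⟨i, hi⟩
  exact ⟨x, by simpa using hx⟩

/-- the successor relation -/
lemma succ_iff {l s : M → M → Prop} {rk : M → ℕ} (h0 : ∀ x, rk x < Fintype.card M)
    (h1 : ∀ x y, rk x = rk y → x = y) (h2 : ∀ x y, l x y ↔ rk x < rk y)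
    (h3 : ∀ i, i < Fintype.card M → ∃ x, rk x = i) (hs : ∀ x y, s x y → l x y)
    (hi : ∀ x x' y, s x y → s x' y → x = x')
    (he : ∀ x x', (∀ y, ¬ s x y) → (∀ y, ¬ s x' y) → x = x') (x y : M) :
    s x y ↔ rk y = rk x + 1 := by
  have hmax : ∀ x, rk x + 1 < Fintype.card M → ∃ y, s x y := by
    intro x hx
    by_contra hcon
    push Not at hcon
    obtain ⟨x0, hx0⟩ := h3 (Fintype.card M - 1) (by omega)
    have h4 : ∀ y, ¬ s x0 y := by
      intro y hy
      have h5 := (h2 _ _).1 (hs _ _ hy)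
      have h6 := h0 y
      omega
    have := he _ _ hcon h4
    rw [this] at hx
    omega
  have key : ∀ n x y, s x y → Fintype.card M - rk x ≤ n → rk y = rk x + 1 := by
    intro n
    induction n with
    | zero =>
      intro x y _ h
      have := h0 x
      omega
    | succ n ih =>
      intro x y hxy hn
      by_contra hne
      have h5 := (h2 _ _).1 (hs _ _ hxy)
      have h6 := h0 y
      obtain ⟨x', hx'⟩ := h3 (rk y - 1) (by omega)
      obtain ⟨y', hy'⟩ := hmax x' (by omega)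
      have h7 := ih x' y' hy' (by omega)
      have h8 : y' = y := h1 _ _ (by omega)
      rw [h8] at hy'
      have h9 := hi _ _ _ hxy hy'
      rw [h9] at h5 hne
      omega
  constructor
  · intro h
    exact key _ x y h le_rfl
  · intro h
    obtain ⟨y', hy'⟩ := hmax x (by have := h0 y; omega)
    have h7 := key _ x y' hy' le_rfl
    have h8 : y' = y := h1 _ _ (by omega)
    rwa [h8] at hy'

/-- number of smaller elements with a property -/
lemma count_eq {l : M → M → Prop} {rk : M → ℕ} (h0 : ∀ x, rk x < Fintype.card M)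
    (h1 : ∀ x y, rk x = rk y → x = y) (h2 : ∀ x y, l x y ↔ rk x < rk y)
    {u : ℕ → M} (hu : ∀ i, i < Fintype.card M → rk (u i) = i) (P : M → Prop) (x : M) :
    {y | P y ∧ l y x}.ncard = cnt (fun j => P (u j)) (rk x) := by
  rw [cnt_eq_ncard]
  symm
  refine Set.ncard_congr (fun j _ => u j) ?_ ?_ ?_
  · rintro j ⟨hj, hj'⟩
    refine ⟨hj', ?_⟩
    have := h0 x
    rw [h2, hu j (by omega)]
    exact hj
  · rintro j j' ⟨hj, _⟩ ⟨hj', _⟩ h
    have := h0 x
    change u j = u j' at h
    rw [← hu j (by omega), ← hu j' (by omega), h]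
  · rintro y ⟨hy, hy'⟩
    have h5 := (h2 _ _).1 hy'
    have h6 : u (rk y) = y := h1 _ _ (hu _ (h0 y))
    refine ⟨rk y, ⟨h5, ?_⟩, h6⟩
    show P (u (rk y))
    rw [h6]
    exact hy

lemma count_total {rk : M → ℕ} (h0 : ∀ x, rk x < Fintype.card M)
    (h1 : ∀ x y, rk x = rk y → x = y)
    {u : ℕ → M} (hu : ∀ i, i < Fintype.card M → rk (u i) = i) (P : M → Prop) :
    {y | P y}.ncard = cnt (fun j => P (u j)) (Fintype.card M) := by
  rw [cnt_eq_ncard]
  symm
  refine Set.ncard_congr (fun j _ => u j) ?_ ?_ ?_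
  · rintro j ⟨_, hj'⟩
    exact hj'
  · rintro j j' ⟨hj, _⟩ ⟨hj', _⟩ h
    change u j = u j' at h
    rw [← hu j hj, ← hu j' hj', h]
  · intro y hy
    have h6 : u (rk y) = y := h1 _ _ (hu _ (h0 y))
    refine ⟨rk y, ⟨h0 y, ?_⟩, h6⟩
    show P (u (rk y))
    rw [h6]
    exact hy

end Enum

lemma count_not (P : ℕ → Prop) (i : ℕ) : cnt P i + cnt (fun j => ¬ P j) i = i := by
  induction i with
  | zero => rw [cnt_zero, cnt_zero]
  | succ i ih =>
    by_cases h : P i
    · rw [cnt_pos h, cnt_neg (P := fun j => ¬ P j) (fun h' => h' h)]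
      omega
    · rw [cnt_neg h, cnt_pos (P := fun j => ¬ P j) h]
      omega

lemma count_even (P : ℕ → Prop) (m : ℕ) (hP : ∀ i, i < m → (P i ↔ i % 2 = 0)) (i : ℕ)
    (hi : i ≤ m) : cnt P i = (i + 1) / 2 := by
  induction i with
  | zero => rw [cnt_zero]
  | succ i ih =>
    by_cases h : P i
    · rw [cnt_pos h, ih (by omega)]
      rw [hP i (by omega)] at h
      omega
    · rw [cnt_neg h, ih (by omega)]
      rw [hP i (by omega)] at h
      omega

/-- From models to words. -/
theorem wd_of_ax {W : Wang Γ} {M : Type} [Fintype M] [Nonempty M] {l1 l2 s1 s2 : M → M → Prop}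
    {lab : M → Lt Γ} {T A Z : M → Prop} (hl1 : Lin l1) (hl2 : Lin l2)
    (H : Ax W l1 l2 s1 s2 lab T A Z) : ∃ n N w, Fintype.card M = 2 * n ∧ Wd W n N w := by
  classical
  set m := Fintype.card M with hm
  have hm0 : 0 < m := Fintype.card_pos
  obtain ⟨r1, r1a, r1b, r1c, r1d⟩ := exists_rank hl1
  obtain ⟨r2, r2a, r2b, r2c, r2d⟩ := exists_rank hl2
  have S1 := succ_iff r1a r1b r1c r1d H.s1l H.s1i H.s1e
  have S2 := succ_iff r2a r2b r2c r2d H.s2l H.s2i H.s2e
  obtain ⟨u, hu⟩ : ∃ u : ℕ → M, ∀ i, i < m → r1 (u i) = i := by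
    choose g hg using r1d
    refine ⟨fun i => if h : i < m then g i h else Classical.arbitrary M, fun i hi => ?_⟩
    simp only [dif_pos hi]
    exact hg i hi
  obtain ⟨v, hv⟩ : ∃ v : ℕ → M, ∀ i, i < m → r2 (v i) = i := by
    choose g hg using r2d
    refine ⟨fun i => if h : i < m then g i h else Classical.arbitrary M, fun i hi => ?_⟩
    simp only [dif_pos hi]
    exact hg i hi
  have su : ∀ i, i + 1 < m → s1 (u i) (u (i + 1)) := by
    intro i hi
    rw [S1, hu i (by omega), hu (i + 1) hi]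
  have sv : ∀ i, i + 1 < m → s2 (v i) (v (i + 1)) := by
    intro i hi
    rw [S2, hv i (by omega), hv (i + 1) hi]
  -- the second order
  have hv0 := H.f2 (v 0) (fun y h => by
    rw [S2, hv 0 hm0] at h
    omega)
  have hve := H.e2 (v (m - 1)) (fun y h => by
    rw [S2, hv (m - 1) (by omega)] at h
    have := r2a y
    omega)
  have Tv : ∀ i, i < m → (T (v i) ↔ i % 2 = 0) := by
    intro i
    induction i with
    | zero => intro _; simp [hv0.1]
    | succ i ih =>
      intro hi
      have h1 := H.a2 _ _ (sv i hi)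
      have h2 := ih (by omega)
      by_cases h : T (v (i + 1))
      · have h3 : ¬ T (v i) := fun h' => (h1.1 h') h
        rw [h2] at h3
        simp only [h, true_iff]
        omega
      · have h3 : T (v i) := h1.2 h
        rw [h2] at h3
        simp only [h, false_iff]
        omega
  have hmeven : m % 2 = 0 := by
    have h1 := hve.1
    rw [Tv (m - 1) (by omega)] at h1
    omega
  obtain ⟨n, hn⟩ : ∃ n, m = 2 * n := ⟨m / 2, by omega⟩
  -- the first order
  have hu0 := H.f1 (u 0) (fun y h => by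
    rw [S1, hu 0 hm0] at h
    omega)
  have hue := H.e1 (u (m - 1)) (fun y h => by
    rw [S1, hu (m - 1) (by omega)] at h
    have := r1a y
    omega)
  have hexA : ∃ i, ¬ A (u i) := ⟨m - 1, fun h => H.tZ _ hue (H.tA _ h)⟩
  have hexZ : ∃ i, Z (u i) := ⟨m - 1, hue⟩
  obtain ⟨N, hN1, hN2⟩ : ∃ N, ¬ A (u N) ∧ ∀ i, i < N → A (u i) :=
    ⟨Nat.find hexA, Nat.find_spec hexA, fun i hi => by
      have := Nat.find_min hexA hi
      simpa using this⟩
  obtain ⟨E, hE1, hE2⟩ : ∃ E, Z (u E) ∧ ∀ i, i < E → ¬ Z (u i) :=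
    ⟨Nat.find hexZ, Nat.find_spec hexZ, fun i hi => Nat.find_min hexZ hi⟩
  have hNpos : 1 ≤ N := by
    rcases Nat.eq_zero_or_pos N with h | h
    · rw [h] at hN1
      exact absurd hu0 hN1
    · exact h
  have hEm : E < m := by
    by_contra h
    exact hE2 (m - 1) (by omega) hue
  have hNE : N ≤ E := by
    by_contra h
    exact H.tZ _ hE1 (H.tA _ (hN2 E (by omega)))
  have Au : ∀ i, N ≤ i → i < m → ¬ A (u i) := by
    intro i hi
    induction i, hi using Nat.le_induction with
    | base => intro _; exact hN1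
    | succ i hi ih =>
      intro him
      have h1 := ih (by omega)
      have h2 := su i him
      by_cases hT : T (u i)
      · exact fun h => (H.tt _ _ h2 hT h1).1 (H.tA _ h)
      · by_cases hZ : Z (u i)
        · exact fun h => H.tZ _ (H.zz _ _ h2 hZ) (H.tA _ h)
        · exact (H.bb _ _ h2 hT hZ).1
  have Zu : ∀ i, E ≤ i → i < m → Z (u i) := by
    intro i hi
    induction i, hi using Nat.le_induction with
    | base => intro _; exact hE1
    | succ i hi ih =>
      intro him
      exact H.zz _ _ (su i him) (ih (by omega))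
  have hlastN : ∀ p, p < N → ((lab (u p)).2.2.1 = true ↔ p + 1 = N) := by
    intro p hp
    have h1 := hN2 p hp
    have h2 := su p (by omega)
    by_cases hla : (lab (u p)).2.2.1 = true
    · have h3 := (H.ab _ _ h2 h1 hla).1
      simp only [hla, true_iff]
      by_contra hne
      exact h3 (hN2 (p + 1) (by omega))
    · have h3 := H.aa _ _ h2 h1 (by simpa using hla)
      refine ⟨fun h => absurd h hla, fun heq => ?_⟩
      rw [heq] at h3
      exact absurd h3 hN1
  have Tu : ∀ i, N ≤ i → i < E → (T (u i) ↔ (i - N) % 2 = 0) := by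
    intro i hi
    induction i, hi using Nat.le_induction with
    | base =>
      intro hiE
      have h1 := (H.ab (u (N - 1)) (u N) (by
        have := su (N - 1) (by omega)
        rwa [Nat.sub_add_cancel hNpos] at this) (hN2 _ (by omega)) ((hlastN (N - 1) (by omega)).2
          (by omega))).2
      have h2 := hE2 N hiE
      simp only [Nat.sub_self, Nat.zero_mod, iff_true]
      tauto
    | succ i hi ih =>
      intro hiE
      have h1 := ih (by omega)
      have h2 := su i (by omega)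
      have h3 := Au i hi (by omega)
      have h4 := hE2 i (by omega)
      have h5 := hE2 (i + 1) hiE
      by_cases hT : T (u i)
      · have h6 := (H.tt _ _ h2 hT h3).1
        rw [h1] at hT
        simp only [h6, false_iff]
        omega
      · have h6 := (H.bb _ _ h2 hT h4).2
        have h7 : T (u (i + 1)) := by tauto
        rw [h1] at hT
        simp only [h7, true_iff]
        omega
  have hEN : (E - N) % 2 = 0 := by
    rcases Nat.eq_or_lt_of_le hNE with h | h
    · rw [h]; simp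
    · have h1 := Tu (E - 1) (by omega) (by omega)
      by_contra hne
      have h2 : T (u (E - 1)) := by
        rw [h1]
        omega
      have h3 := su (E - 1) (by omega)
      rw [Nat.sub_add_cancel (by omega)] at h3
      exact (H.tt _ _ h3 h2 (Au _ (by omega) (by omega))).2.1 hE1
  -- counting tops in the first order
  have cu1 : ∀ i, i ≤ N → cnt (fun j => T (u j)) i = i := by
    intro i
    induction i with
    | zero => intro _; exact cnt_zero
    | succ i ih =>
      intro hi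
      rw [cnt_pos (P := fun j => T (u j)) (H.tA _ (hN2 i (by omega))), ih (by omega)]
  have cu2 : ∀ i, N ≤ i → i ≤ E → cnt (fun j => T (u j)) i = N + (i - N + 1) / 2 := by
    intro i hi
    induction i, hi using Nat.le_induction with
    | base =>
      intro _
      rw [cu1 N le_rfl]
      omega
    | succ i hi ih =>
      intro hiE
      have h1 := Tu i hi (by omega)
      by_cases hT : T (u i)
      · rw [cnt_pos (P := fun j => T (u j)) hT, ih (by omega)]
        rw [h1] at hT
        omega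
      · rw [cnt_neg (P := fun j => T (u j)) hT, ih (by omega)]
        rw [h1] at hT
        omega
  have cu3 : ∀ i, E ≤ i → i ≤ m → cnt (fun j => T (u j)) i = N + (E - N) / 2 := by
    intro i hi
    induction i, hi using Nat.le_induction with
    | base =>
      intro _
      rw [cu2 E hNE le_rfl]
      omega
    | succ i hi ih =>
      intro him
      rw [cnt_neg (P := fun j => T (u j)) (H.tZ _ (Zu i hi (by omega))), ih (by omega)]
  have cv : ∀ i, i ≤ m → cnt (fun j => T (v j)) i = (i + 1) / 2 := count_even _ m Tv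
  have hnN : N + (E - N) / 2 = n := by
    have h1 := count_total r1a r1b hu T
    have h2 := count_total r2a r2b hv T
    rw [← hm] at h1 h2
    rw [cu3 m (by omega) le_rfl] at h1
    rw [cv m le_rfl] at h2
    omega
  -- comparison
  have cT : ∀ x, T x → r2 x = 2 * cnt (fun j => T (u j)) (r1 x) := by
    intro x hx
    have h1 := count_eq r1a r1b r1c hu T x
    have h2 := count_eq r2a r2b r2c hv T x
    have h3 : {y | T y ∧ l1 y x} = {y | T y ∧ l2 y x} := by
      ext y
      exact and_congr_right (fun hy => H.ag y x (by simp [hx, hy]))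
    rw [h3, h2, cv _ (r2a x).le] at h1
    have h4 := Tv (r2 x) (r2a x)
    rw [show v (r2 x) = x from r2b _ _ (hv _ (r2a x))] at h4
    have h5 := h4.1 hx
    omega
  have cB : ∀ x, ¬ T x → r2 x = 2 * (r1 x - cnt (fun j => T (u j)) (r1 x)) + 1 := by
    intro x hx
    have h1 := count_eq r1a r1b r1c hu (fun y => ¬ T y) x
    have h2 := count_eq r2a r2b r2c hv (fun y => ¬ T y) x
    have h3 : {y | ¬ T y ∧ l1 y x} = {y | ¬ T y ∧ l2 y x} := by
      ext y
      exact and_congr_right (fun hy => H.ag y x (by simp [hx, hy]))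
    rw [h3, h2] at h1
    have h6 := count_not (fun j => T (u j)) (r1 x)
    have h7 := count_not (fun j => T (v j)) (r2 x)
    have h8 := cv _ (r2a x).le
    have h4 := Tv (r2 x) (r2a x)
    rw [show v (r2 x) = x from r2b _ _ (hv _ (r2a x))] at h4
    have h5 : ¬ r2 x % 2 = 0 := fun h => hx (h4.2 h)
    omega
  have id1 : ∀ p, p < N → u p = v (2 * p) := by
    intro p hp
    refine r2b _ _ ?_
    rw [cT (u p) (H.tA _ (hN2 p hp)), hu p (by omega), cu1 p (by omega), hv _ (by omega)]
  have id2 : ∀ p, p + N < n → u (N + 2 * p) = v (2 * (p + N)) := by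
    intro p hp
    refine r2b _ _ ?_
    have h1 : T (u (N + 2 * p)) := by
      rw [Tu _ (by omega) (by omega)]
      omega
    rw [cT _ h1, hu _ (by omega), cu2 _ (by omega) (by omega), hv _ (by omega)]
    omega
  have id3 : ∀ p, p + N < n → u (N + 2 * p + 1) = v (2 * p + 1) := by
    intro p hp
    refine r2b _ _ ?_
    have h1 : ¬ T (u (N + 2 * p + 1)) := by
      rw [Tu _ (by omega) (by omega)]
      omega
    rw [cB _ h1, hu _ (by omega), cu2 _ (by omega) (by omega), hv _ (by omega)]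
    omega
  have id4 : ∀ p, p < n → n ≤ p + N → u (n + p) = v (2 * p + 1) := by
    intro p hp hp'
    refine r2b _ _ ?_
    rw [cB _ (H.tZ _ (Zu (n + p) (by omega) (by omega))), hu _ (by omega),
      cu3 _ (by omega) (by omega), hv _ (by omega)]
    omega
  have hpair : ∀ p, p < n → lab (v (2 * p)) = lab (v (2 * p + 1)) := by
    intro p hp
    refine H.p2 _ _ (sv (2 * p) (by omega)) ?_
    rw [Tv _ (by omega)]
    omega
  refine ⟨n, N, fun p => lab (v (2 * p)), hn, hNpos, by omega, fun p hp => H.u _, fun p hp => ?_,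
    fun p hp => ?_, fun p hp => ?_, fun p hp hp' => ?_, fun p hp => ?_, ?_, ?_⟩
  · show hOK W (lab (v (2 * p))) (lab (v (2 * (p + 1))))
    rw [hpair p (by omega)]
    refine H.h2 _ _ (sv (2 * p + 1) (by omega)) ?_
    rw [Tv _ (by omega)]
    omega
  · show vOK W (lab (v (2 * p))) (lab (v (2 * (p + N))))
    rw [hpair p (by omega), ← id2 p hp, ← id3 p hp]
    refine (H.tt _ _ (su (N + 2 * p) (by omega)) ?_ (Au _ (by omega) (by omega))).2.2
    rw [Tu _ (by omega) (by omega)]
    omega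
  · show W.b (lab (v (2 * p))).1
    rw [← id1 p hp]
    exact H.b _ (hN2 p hp)
  · show W.t (lab (v (2 * p))).1
    rw [hpair p (by omega), ← id4 p hp hp']
    exact H.t _ (Zu _ (by omega) (by omega))
  · show (lab (v (2 * p))).2.2.1 = true ↔ p + 1 = N
    rw [← id1 p hp]
    exact hlastN p hp
  · exact hv0.2
  · show (lab (v (2 * (n - 1)))).2.2.1 = true ∧ (lab (v (2 * (n - 1)))).2.2.2 = 1
    rw [hpair (n - 1) (by omega), show 2 * (n - 1) + 1 = m - 1 by omega]
    exact hve.2

/-- position in the first order -/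
def key (n N : ℕ) (j : ℕ) : ℕ :=
  if j % 2 = 0 then (if j / 2 < N then j / 2 else 2 * (j / 2) - N)
  else if j / 2 + N < n then N + 2 * (j / 2) + 1 else n + j / 2

lemma key_cases {n N : ℕ} (hn : N ≤ n) (j : ℕ) :
    (j % 2 = 0 ∧ j / 2 < N ∧ key n N j = j / 2) ∨
    (j % 2 = 0 ∧ N ≤ j / 2 ∧ key n N j = 2 * (j / 2) - N) ∨
    (j % 2 = 1 ∧ j / 2 + N < n ∧ key n N j = N + 2 * (j / 2) + 1) ∨
    (j % 2 = 1 ∧ n ≤ j / 2 + N ∧ key n N j = n + j / 2) := by
  unfold key
  by_cases h : j % 2 = 0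
  · rw [if_pos h]
    by_cases h' : j / 2 < N
    · rw [if_pos h']; left; exact ⟨h, h', rfl⟩
    · rw [if_neg h']; right; left; exact ⟨h, by omega, rfl⟩
  · rw [if_neg h]
    by_cases h' : j / 2 + N < n
    · rw [if_pos h']; right; right; left; exact ⟨by omega, h', rfl⟩
    · rw [if_neg h']; right; right; right; exact ⟨by omega, by omega, rfl⟩

/-- From words to models. -/
theorem ax_of_wd {W : Wang Γ} {n N : ℕ} {w : ℕ → Lt Γ} (H : Wd W n N w) :
    ∃ (l1 l2 s1 s2 : Fin (2 * n) → Fin (2 * n) → Prop) (lab : Fin (2 * n) → Lt Γ)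
      (T A Z : Fin (2 * n) → Prop), Lin l1 ∧ Lin l2 ∧ Ax W l1 l2 s1 s2 lab T A Z := by
  have hN := H.hN
  have hn := H.hn
  have kc := key_cases hn
  have kinj : ∀ x y : Fin (2 * n), key n N x = key n N y → x = y := by
    intro x y h
    have hx := x.2
    have hy := y.2
    apply Fin.ext
    rcases kc x with h1 | h1 | h1 | h1 <;> rcases kc y with h2 | h2 | h2 | h2 <;> omega
  have klt : ∀ x : Fin (2 * n), key n N x < 2 * n := by
    intro x
    have hx := x.2
    rcases kc x with h1 | h1 | h1 | h1 <;> omega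
  have ksur : ∀ i, i < 2 * n → ∃ x : Fin (2 * n), key n N x = i := by
    intro i hi
    have h6 := (Finite.injective_iff_surjective (f := fun x : Fin (2 * n) =>
      (⟨key n N x, klt x⟩ : Fin (2 * n)))).1 (fun x y h => kinj x y (by simpa using h))
    obtain ⟨x, hx⟩ := h6 ⟨i, hi⟩
    exact ⟨x, by simpa using hx⟩
  refine ⟨fun x y => key n N x < key n N y, fun x y => (x : ℕ) < y,
    fun x y => key n N y = key n N x + 1, fun x y => (y : ℕ) = x + 1, fun x => w ((x : ℕ) / 2),
    fun x => (x : ℕ) % 2 = 0, fun x => (x : ℕ) % 2 = 0 ∧ (x : ℕ) / 2 < N,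
    fun x => (x : ℕ) % 2 = 1 ∧ n ≤ (x : ℕ) / 2 + N, ⟨fun x => lt_irrefl _, fun x y z => lt_trans,
    fun x y h => ?_⟩, ⟨fun x => lt_irrefl _, fun x y z => lt_trans, fun x y h => ?_⟩, ?_⟩
  · have h1 : key n N x ≠ key n N y := fun h' => h (kinj _ _ h')
    show key n N x < key n N y ∨ key n N y < key n N x
    omega
  · have h1 : (x : ℕ) ≠ y := fun h' => h (Fin.ext h')
    show (x : ℕ) < y ∨ (y : ℕ) < x
    omega
  · constructor
    · intro x y h
      show key n N x < key n N y
      omega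
    · intro x x' y h h'
      exact kinj _ _ (by omega)
    · intro x x' h h'
      have h1 : ∀ x : Fin (2 * n), (∀ y : Fin (2 * n), ¬ key n N y = key n N x + 1) →
          key n N x = 2 * n - 1 := by
        intro x hx
        by_contra hne
        obtain ⟨y, hy⟩ := ksur (key n N x + 1) (by have := klt x; omega)
        exact hx y hy
      exact kinj _ _ (by rw [h1 x h, h1 x' h'])
    · intro x y h
      show (x : ℕ) < y
      omega
    · intro x x' y h h'
      exact Fin.ext (by omega)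
    · intro x x' h h'
      have h1 : ∀ x : Fin (2 * n), (∀ y : Fin (2 * n), ¬ (y : ℕ) = x + 1) →
          (x : ℕ) = 2 * n - 1 := by
        intro x hx
        by_contra hne
        exact hx ⟨(x : ℕ) + 1, by have := x.2; omega⟩ rfl
      exact Fin.ext (by rw [h1 x h, h1 x' h'])
    · intro x y h
      have hx := x.2
      have hy := y.2
      show key n N x < key n N y ↔ (x : ℕ) < y
      change ((x : ℕ) % 2 = 0 ↔ (y : ℕ) % 2 = 0) at h
      rcases kc x with h1 | h1 | h1 | h1 <;> rcases kc y with h2 | h2 | h2 | h2 <;> omega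
    · intro x hx
      have h0 : (x : ℕ) = 0 := by
        by_contra hne
        exact hx ⟨(x : ℕ) - 1, by have := x.2; omega⟩ (by show (x : ℕ) = (x : ℕ) - 1 + 1; omega)
      show (x : ℕ) % 2 = 0 ∧ (w ((x : ℕ) / 2)).2.1 = true ∧ (w ((x : ℕ) / 2)).2.2.2 = 1 ∧
        W.c (w ((x : ℕ) / 2)).1
      rw [h0]
      exact ⟨rfl, H.s⟩
    · intro x hx
      have h0 : (x : ℕ) = 2 * n - 1 := by
        by_contra hne
        exact hx ⟨(x : ℕ) + 1, by have := x.2; omega⟩ rfl
      show ¬ (x : ℕ) % 2 = 0 ∧ (w ((x : ℕ) / 2)).2.2.1 = true ∧ (w ((x : ℕ) / 2)).2.2.2 = 1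
      rw [h0, show (2 * n - 1) / 2 = n - 1 by omega]
      exact ⟨by omega, H.e⟩
    · intro x y h
      show (x : ℕ) % 2 = 0 ↔ ¬ (y : ℕ) % 2 = 0
      omega
    · intro x y h h'
      show w ((x : ℕ) / 2) = w ((y : ℕ) / 2)
      change (x : ℕ) % 2 = 0 at h'
      rw [show (y : ℕ) / 2 = (x : ℕ) / 2 by omega]
    · intro x y h h'
      show hOK W (w ((x : ℕ) / 2)) (w ((y : ℕ) / 2))
      change ¬ (x : ℕ) % 2 = 0 at h'
      have hy := y.2
      rw [show (y : ℕ) / 2 = (x : ℕ) / 2 + 1 by omega]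
      exact H.h _ (by omega)
    · intro x hx
      have h0 : key n N x = 0 := by
        by_contra hne
        obtain ⟨y, hy⟩ := ksur (key n N x - 1) (by have := klt x; omega)
        exact hx y (by rw [hy]; omega)
      have hx2 := x.2
      show (x : ℕ) % 2 = 0 ∧ (x : ℕ) / 2 < N
      rcases kc x with h1 | h1 | h1 | h1 <;> omega
    · intro x hx
      have h0 : key n N x = 2 * n - 1 := by
        by_contra hne
        obtain ⟨y, hy⟩ := ksur (key n N x + 1) (by have := klt x; omega)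
        exact hx y hy
      have hx2 := x.2
      show (x : ℕ) % 2 = 1 ∧ n ≤ (x : ℕ) / 2 + N
      rcases kc x with h1 | h1 | h1 | h1 <;> omega
    · exact fun x h => h.1
    · intro x h h'
      change (x : ℕ) % 2 = 0 at h'
      omega
    · intro x y h hA hla
      have hx := x.2
      have hy := y.2
      have h3 : ¬ (x : ℕ) / 2 + 1 = N := by
        rw [← H.l _ hA.2]
        change (w ((x : ℕ) / 2)).2.2.1 = false at hla
        simp [hla]
      show (y : ℕ) % 2 = 0 ∧ (y : ℕ) / 2 < N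
      rcases kc x with h1 | h1 | h1 | h1 <;> rcases kc y with h2 | h2 | h2 | h2 <;> omega
    · intro x y h hA hla
      have hx := x.2
      have hy := y.2
      have h3 : (x : ℕ) / 2 + 1 = N := (H.l _ hA.2).1 hla
      show ¬ ((y : ℕ) % 2 = 0 ∧ (y : ℕ) / 2 < N) ∧ ((y : ℕ) % 2 = 0 ∨
        ((y : ℕ) % 2 = 1 ∧ n ≤ (y : ℕ) / 2 + N))
      rcases kc x with h1 | h1 | h1 | h1 <;> rcases kc y with h2 | h2 | h2 | h2 <;> omega
    · intro x y h hT hA
      have hx := x.2
      have hy := y.2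
      change (x : ℕ) % 2 = 0 at hT
      change ¬ ((x : ℕ) % 2 = 0 ∧ (x : ℕ) / 2 < N) at hA
      have h3 : (y : ℕ) % 2 = 1 ∧ (y : ℕ) / 2 + N < n ∧ (x : ℕ) / 2 = (y : ℕ) / 2 + N := by
        rcases kc x with h1 | h1 | h1 | h1 <;> rcases kc y with h2 | h2 | h2 | h2 <;> omega
      show ¬ (y : ℕ) % 2 = 0 ∧ ¬ ((y : ℕ) % 2 = 1 ∧ n ≤ (y : ℕ) / 2 + N) ∧
        vOK W (w ((y : ℕ) / 2)) (w ((x : ℕ) / 2))
      refine ⟨by omega, by omega, ?_⟩
      rw [h3.2.2]
      exact H.v _ h3.2.1
    · intro x y h hT hZ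
      have hx := x.2
      have hy := y.2
      change ¬ (x : ℕ) % 2 = 0 at hT
      change ¬ ((x : ℕ) % 2 = 1 ∧ n ≤ (x : ℕ) / 2 + N) at hZ
      show ¬ ((y : ℕ) % 2 = 0 ∧ (y : ℕ) / 2 < N) ∧ ((y : ℕ) % 2 = 0 ∨
        ((y : ℕ) % 2 = 1 ∧ n ≤ (y : ℕ) / 2 + N))
      rcases kc x with h1 | h1 | h1 | h1 <;> rcases kc y with h2 | h2 | h2 | h2 <;> omega
    · intro x y h hZ
      have hx := x.2
      have hy := y.2
      change ((x : ℕ) % 2 = 1 ∧ n ≤ (x : ℕ) / 2 + N) at hZ
      show (y : ℕ) % 2 = 1 ∧ n ≤ (y : ℕ) / 2 + N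
      rcases kc x with h1 | h1 | h1 | h1 <;> rcases kc y with h2 | h2 | h2 | h2 <;> omega
    · intro x
      have hx := x.2
      exact H.u _ (by omega)
    · exact fun x h => H.b _ h.2
    · intro x h
      have hx := x.2
      exact H.t _ (by omega) h.2

/-- The sizes of the models of the axioms. -/
theorem sizes_iff (W : Wang Γ) (m : ℕ) (hm : 1 ≤ m) :
    (∃ (M : Type) (_ : Fintype M) (l1 l2 s1 s2 : M → M → Prop) (lab : M → Lt Γ)
      (T A Z : M → Prop), Fintype.card M = m ∧ Lin l1 ∧ Lin l2 ∧ Ax W l1 l2 s1 s2 lab T A Z) ↔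
    ∃ N, 1 ≤ N ∧ m = 2 * (N * N) ∧ Tiles W N := by
  constructor
  · rintro ⟨M, _, l1, l2, s1, s2, lab, T, A, Z, hc, h1, h2, H⟩
    have : Nonempty M := by
      rw [← Fintype.card_pos_iff]
      omega
    obtain ⟨n, N, w, hn, hw⟩ := wd_of_ax h1 h2 H
    obtain ⟨h3, h4⟩ := hw.tiles
    exact ⟨N, hw.hN, by rw [← hc, hn, h3], h4⟩
  · rintro ⟨N, hN, rfl, hT⟩
    obtain ⟨w, hw⟩ := wd_of_tiles hN hT
    obtain ⟨l1, l2, s1, s2, lab, T, A, Z, h1, h2, H⟩ := ax_of_wd hw
    exact ⟨Fin (2 * (N * N)), inferInstance, l1, l2, s1, s2, lab, T, A, Z, Fintype.card_fin _,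
      h1, h2, H⟩

end Pool.Agent.Helper74.W2O
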