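import Pool.Agent.Helper29.Prefix.Wang

/-!
# Square tilings as words with a shift
-/

set_option autoImplicit false

namespace Pool.Agent.Helper74.W2O

open Pool.Agent.Helper29.Prefix

variable {Γ : Type}

/-- letters: tile, first in the row, last in the row, before / on / after the diagonal -/
abbrev Lt (Γ : Type) : Type := Γ × Bool × Bool × Fin 3

/-- horizontal rule -/
def hOK (W : Wang Γ) (a b : Lt Γ) : Prop :=
  a.2.2.1 = b.2.1 ∧ (a.2.2.1 = false → W.R a.1 b.1 ∧
    ((a.2.2.2 = 0 ∧ b.2.2.2 ≠ 2) ∨ (a.2.2.2 ≠ 0 ∧ b.2.2.2 = 2)))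

/-- rule for one letter -/
def uOK (W : Wang Γ) (a : Lt Γ) : Prop :=
  (a.2.1 = true → W.l a.1 ∧ a.2.2.2 ≠ 2) ∧ (a.2.2.1 = true → W.r a.1 ∧ a.2.2.2 ≠ 0)

/-- vertical rule -/
def vOK (W : Wang Γ) (a b : Lt Γ) : Prop :=
  a.2.2.1 = b.2.2.1 ∧ W.U a.1 b.1 ∧
    ((a.2.2.2 ≠ 2 ∧ b.2.2.2 = 0) ∨ (a.2.2.2 = 2 ∧ b.2.2.2 ≠ 0))

/-- a word of length `n` with shift `N` -/
structure Wd (W : Wang Γ) (n N : ℕ) (w : ℕ → Lt Γ) : Prop where
  hN : 1 ≤ N
  hn : N ≤ n
  u : ∀ p, p < n → uOK W (w p)
  h : ∀ p, p + 1 < n → hOK W (w p) (w (p + 1))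
  v : ∀ p, p + N < n → vOK W (w p) (w (p + N))
  b : ∀ p, p < N → W.b (w p).1
  t : ∀ p, p < n → n ≤ p + N → W.t (w p).1
  l : ∀ p, p < N → ((w p).2.2.1 = true ↔ p + 1 = N)
  s : (w 0).2.1 = true ∧ (w 0).2.2.2 = 1 ∧ W.c (w 0).1
  e : (w (n - 1)).2.2.1 = true ∧ (w (n - 1)).2.2.2 = 1

lemma fin3 (a : Fin 3) : a = 0 ∨ a = 1 ∨ a = 2 := by
  fin_cases a <;> simp

lemma Wd.tiles {W : Wang Γ} {n N : ℕ} {w : ℕ → Lt Γ} (H : Wd W n N w) :
    n = N * N ∧ Tiles W N := by
  have hN := H.hN
  have hn := H.hn
  have last : ∀ p, p < n → ((w p).2.2.1 = true ↔ N ∣ p + 1) := by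
    intro p
    induction p using Nat.strong_induction_on with
    | _ p ih =>
      intro hp
      by_cases h1 : p < N
      · rw [H.l p h1]
        constructor
        · intro h; rw [h]
        · intro h
          have := Nat.le_of_dvd (Nat.succ_pos p) h
          omega
      · have h2 := (H.v (p - N) (by omega)).1
        rw [Nat.sub_add_cancel (by omega)] at h2
        rw [← h2, ih (p - N) (by omega) (by omega)]
        have h3 : p + 1 = (p - N + 1) + N := by omega
        rw [h3, Nat.dvd_add_self_right]
  obtain ⟨K, hK⟩ : N ∣ n := by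
    have := (last (n - 1) (by omega)).1 H.e.1
    rwa [Nat.sub_add_cancel (by omega)] at this
  have hK1 : 1 ≤ K := by
    rcases Nat.eq_zero_or_pos K with h | h
    · rw [h, Nat.mul_zero] at hK; omega
    · exact h
  have hpos : ∀ i j, i < K → j < N → N * i + j < n := by
    intro i j hi hj
    have : N * (i + 1) ≤ N * K := Nat.mul_le_mul_left _ hi
    rw [Nat.mul_add, Nat.mul_one] at this
    omega
  have nlast : ∀ i j, i < K → j + 1 < N → (w (N * i + j)).2.2.1 = false := by
    intro i j hi hj
    by_contra h
    have h1 : (w (N * i + j)).2.2.1 = true := by simpa using h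
    rw [last _ (hpos i j hi (by omega)), Nat.add_assoc, Nat.dvd_add_right (Nat.dvd_mul_right N i)] at h1
    have := Nat.le_of_dvd (Nat.succ_pos j) h1
    omega
  have hrow : ∀ i j, i < K → j + 1 < N → W.R (w (N * i + j)).1 (w (N * i + j + 1)).1 ∧
      (((w (N * i + j)).2.2.2 = 0 ∧ (w (N * i + j + 1)).2.2.2 ≠ 2) ∨
        ((w (N * i + j)).2.2.2 ≠ 0 ∧ (w (N * i + j + 1)).2.2.2 = 2)) := by
    intro i j hi hj
    exact (H.h (N * i + j) (hpos i (j + 1) hi hj)).2 (nlast i j hi hj)
  have hafter : ∀ i j k, i < K → j + k + 1 < N → (w (N * i + j)).2.2.2 ≠ 0 →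
      (w (N * i + (j + k + 1))).2.2.2 = 2 := by
    intro i j k hi
    induction k with
    | zero =>
      intro hk h0
      rcases (hrow i j hi (by omega)).2 with h | h
      · exact absurd h.1 h0
      · exact h.2
    | succ k ih =>
      intro hk h0
      have h1 := ih (by omega) h0
      rcases (hrow i (j + k + 1) hi (by omega)).2 with h | h
      · rw [h.1] at h1
        exact absurd h1 (by decide)
      · exact h.2
  have hdiag : ∀ i, i < K → i < N ∧ ∀ j, j < N →
      (w (N * i + j)).2.2.2 = if j < i then 0 else if j = i then 1 else 2 := by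
    intro i
    induction i with
    | zero =>
      intro _
      refine ⟨by omega, fun j hj => ?_⟩
      rcases j with _ | j
      · simpa using H.s.2.1
      · rw [if_neg (by omega), if_neg (by omega)]
        have h1 := hafter 0 0 j hK1 (by omega) (by
          have := H.s.2.1
          simp only [Nat.mul_zero, Nat.add_zero]
          rw [this]
          decide)
        rw [show 0 + j + 1 = j + 1 by omega] at h1
        exact h1
    | succ i ih =>
      intro hi
      obtain ⟨hiN, hij⟩ := ih (by omega)
      have hv : ∀ j, j < N → vOK W (w (N * i + j)) (w (N * (i + 1) + j)) := by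
        intro j hj
        have h1 := H.v (N * i + j) (by
          have := hpos (i + 1) j hi hj
          rw [Nat.mul_add, Nat.mul_one] at this
          omega)
        rwa [show N * i + j + N = N * (i + 1) + j by ring] at h1
      have hi1 : i + 1 < N := by
        by_contra hcon
        have hiN1 : i = N - 1 := by omega
        have h1 := hij (N - 1) (by omega)
        rw [if_neg (by omega), if_pos (by omega)] at h1
        have h2 := (hv (N - 1) (by omega)).2.2
        rw [h1] at h2
        have h3 : (w (N * (i + 1) + (N - 1))).2.2.2 = 0 := by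
          rcases h2 with h2 | h2
          · exact h2.2
          · exact absurd h2.1 (by decide)
        have h4 : (w (N * (i + 1) + (N - 1))).2.2.1 = true := by
          rw [last _ (hpos (i + 1) (N - 1) hi (by omega))]
          refine ⟨i + 2, ?_⟩
          rw [show N * (i + 1) + (N - 1) + 1 = N * (i + 1) + N by omega]
          ring
        exact ((H.u _ (hpos (i + 1) (N - 1) hi (by omega))).2 h4).2 h3
      refine ⟨hi1, fun j hj => ?_⟩
      have hle : ∀ j, j ≤ i → (w (N * (i + 1) + j)).2.2.2 = 0 := by
        intro j hj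
        have h1 := hij j (by omega)
        have h2 := (hv j (by omega)).2.2
        have h5 : (w (N * i + j)).2.2.2 ≠ 2 := by
          rw [h1]
          split_ifs <;> first | decide | omega
        rcases h2 with h2 | h2
        · exact h2.2
        · exact absurd h2.1 h5
      have heq : (w (N * (i + 1) + (i + 1))).2.2.2 = 1 := by
        have h1 := hij (i + 1) (by omega)
        rw [if_neg (by omega), if_neg (by omega)] at h1
        have h2 := (hv (i + 1) (by omega)).2.2
        rw [h1] at h2
        have h3 : (w (N * (i + 1) + (i + 1))).2.2.2 ≠ 0 := by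
          rcases h2 with h2 | h2
          · exact absurd rfl h2.1
          · exact h2.2
        have h4 := (hrow (i + 1) i hi (by omega)).2
        rw [hle i le_rfl] at h4
        have h5 : (w (N * (i + 1) + i + 1)).2.2.2 ≠ 2 := by
          rcases h4 with h4 | h4
          · exact h4.2
          · exact absurd rfl h4.1
        rw [Nat.add_assoc] at h5
        rcases fin3 (w (N * (i + 1) + (i + 1))).2.2.2 with h | h | h
        · exact absurd h h3
        · exact h
        · exact absurd h h5
      rcases lt_trichotomy j (i + 1) with h | h | h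
      · rw [if_pos h]
        exact hle j (by omega)
      · rw [if_neg (by omega), if_pos h, h]
        exact heq
      · rw [if_neg (by omega), if_neg (by omega)]
        obtain ⟨k, rfl⟩ := Nat.exists_eq_add_of_lt h
        exact hafter (i + 1) (i + 1) k hi hj (by rw [heq]; decide)
  have hKN : K = N := by
    obtain ⟨h1, h2⟩ := hdiag (K - 1) (by omega)
    have h3 := h2 (N - 1) (by omega)
    have h4 : N * (K - 1) + (N - 1) = n - 1 := by
      have : N * K = N * (K - 1) + N := by
        obtain ⟨K', rfl⟩ := Nat.exists_eq_add_of_le hK1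
        rw [Nat.add_sub_cancel_left]
        ring
      omega
    rw [h4, H.e.2] at h3
    split_ifs at h3 with h5 h6
    · exact absurd h3 (by decide)
    · omega
    · exact absurd h3 (by decide)
  subst hKN
  refine ⟨hK, fun x y => (w (K * y + x)).1, ?_, ?_, ?_, ?_, ?_, ?_, ?_⟩
  · intro x y hx hy
    exact (hrow y x hy hx).1
  · intro x y hx hy
    have h1 := H.v (K * y + x) (by
      have := hpos (y + 1) x hy hx
      rw [Nat.mul_add, Nat.mul_one] at this
      omega)
    rw [show K * y + x + K = K * (y + 1) + x by ring] at h1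
    exact h1.2.1
  · intro y hy
    refine ((H.u (K * y + 0) (hpos y 0 hy (by omega))).1 ?_).1
    rcases y with _ | y
    · simpa using H.s.1
    · have h1 := hpos (y + 1) 0 hy (by omega)
      have h2 : K * (y + 1) = K * y + K := by ring
      have h3 := (H.h (K * (y + 1) - 1) (by omega)).1
      rw [Nat.sub_add_cancel (by omega)] at h3
      rw [Nat.add_zero, ← h3, last _ (by omega), Nat.sub_add_cancel (by omega)]
      exact Nat.dvd_mul_right _ _
  · intro y hy
    refine ((H.u (K * y + (K - 1)) (hpos y (K - 1) hy (by omega))).2 ?_).1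
    rw [last _ (hpos y (K - 1) hy (by omega))]
    refine ⟨y + 1, ?_⟩
    rw [show K * y + (K - 1) + 1 = K * y + K by omega]
    ring
  · intro x hx
    show W.b (w (K * 0 + x)).1
    rw [Nat.mul_zero, Nat.zero_add]
    exact H.b x hx
  · intro x hx
    refine H.t _ (hpos (K - 1) x (by omega) hx) ?_
    have : K * K = K * (K - 1) + K := by
      obtain ⟨K', hK'⟩ := Nat.exists_eq_add_of_le hK1
      have h5 : K - 1 = K' := by omega
      rw [h5]
      nth_rewrite 2 [hK']
      ring
    omega
  · exact H.s.2.2

lemma wd_of_tiles {W : Wang Γ} {N : ℕ} (hN : 1 ≤ N) (H : Tiles W N) : ∃ w, Wd W (N * N) N w := by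
  obtain ⟨f, hR, hU, hl, hr, hb, ht, hc⟩ := H
  have hdiv : ∀ p, p < N * N → p / N < N := fun p hp => Nat.div_lt_of_lt_mul hp
  have hmod : ∀ p, p % N < N := fun p => Nat.mod_lt p (by omega)
  have hsucc : ∀ p, p % N + 1 < N → (p + 1) % N = p % N + 1 ∧ (p + 1) / N = p / N := by
    intro p hp
    have h1 := Nat.div_add_mod p N
    constructor
    · rw [Nat.add_mod]
      rcases Nat.lt_or_ge 1 N with h | h
      · rw [Nat.mod_eq_of_lt h, Nat.mod_eq_of_lt hp]
      · omega
    · rw [Nat.div_eq_iff (by omega)]
      constructor
      · rw [mul_comm]; omega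
      · rw [mul_comm]; omega
  have hsucc' : ∀ p, p % N + 1 = N → (p + 1) % N = 0 := by
    intro p hp
    have h1 := Nat.div_add_mod p N
    have h2 : p + 1 = N * (p / N + 1) := by
      rw [Nat.mul_add, Nat.mul_one]; omega
    rw [h2, Nat.mul_mod_right]
  have hNN : N ≤ N * N := Nat.le_mul_of_pos_left N (by omega)
  refine ⟨fun p => (f (p % N) (p / N), decide (p % N = 0), decide (p % N + 1 = N),
    if p % N < p / N then 0 else if p % N = p / N then 1 else 2), hN, hNN, ?_, ?_, ?_, ?_, ?_, ?_,
    ?_, ?_⟩
  · intro p hp
    refine ⟨fun h => ?_, fun h => ?_⟩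
    · have h0 : p % N = 0 := by simpa using h
      refine ⟨?_, ?_⟩
      · show W.l (f (p % N) (p / N))
        rw [h0]
        exact hl _ (hdiv p hp)
      · show (if p % N < p / N then (0 : Fin 3) else if p % N = p / N then 1 else 2) ≠ 2
        rw [h0]
        split_ifs with h1 h2
        · decide
        · decide
        · exact absurd (Nat.pos_of_ne_zero (Ne.symm h2)) h1
    · have h0 : p % N + 1 = N := by simpa using h
      have h1 := hdiv p hp
      refine ⟨?_, ?_⟩
      · show W.r (f (p % N) (p / N))
        rw [show p % N = N - 1 by omega]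
        exact hr _ h1
      · show (if p % N < p / N then (0 : Fin 3) else if p % N = p / N then 1 else 2) ≠ 0
        split_ifs with h1 h2
        · omega
        · decide
        · decide
  · intro p hp
    have h1 := hmod p
    refine ⟨?_, fun h => ?_⟩
    · show decide (p % N + 1 = N) = decide ((p + 1) % N = 0)
      by_cases h2 : p % N + 1 = N
      · rw [decide_eq_true h2, decide_eq_true (hsucc' p h2)]
      · have h3 := (hsucc p (by omega)).1
        rw [decide_eq_false h2, decide_eq_false (by omega)]
    · have h2 : ¬ p % N + 1 = N := by simpa using h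
      obtain ⟨h3, h4⟩ := hsucc p (by omega)
      refine ⟨?_, ?_⟩
      · show W.R (f (p % N) (p / N)) (f ((p + 1) % N) ((p + 1) / N))
        rw [h3, h4]
        exact hR _ _ (by omega) (hdiv p (by omega))
      · show ((if p % N < p / N then (0 : Fin 3) else if p % N = p / N then 1 else 2) = 0 ∧
          (if (p + 1) % N < (p + 1) / N then (0 : Fin 3) else if (p + 1) % N = (p + 1) / N then 1
            else 2) ≠ 2) ∨
          ((if p % N < p / N then (0 : Fin 3) else if p % N = p / N then 1 else 2) ≠ 0 ∧
          (if (p + 1) % N < (p + 1) / N then (0 : Fin 3) else if (p + 1) % N = (p + 1) / N then 1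
            else 2) = 2)
        rw [h3, h4]
        rcases lt_trichotomy (p % N) (p / N) with h5 | h5 | h5
        · left
          rw [if_pos h5]
          refine ⟨rfl, ?_⟩
          split_ifs
          · decide
          · decide
          · omega
        · right
          rw [if_neg (by omega), if_pos h5, if_neg (by omega), if_neg (by omega)]
          exact ⟨by decide, rfl⟩
        · right
          rw [if_neg (by omega), if_neg (by omega), if_neg (by omega), if_neg (by omega)]
          exact ⟨by decide, rfl⟩
  · intro p hp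
    have h1 : (p + N) % N = p % N := Nat.add_mod_right p N
    have h2 : (p + N) / N = p / N + 1 := Nat.add_div_right p (by omega)
    have h3 := hdiv (p + N) hp
    rw [h2] at h3
    refine ⟨?_, ?_, ?_⟩
    · show decide (p % N + 1 = N) = decide ((p + N) % N + 1 = N)
      rw [h1]
    · show W.U (f (p % N) (p / N)) (f ((p + N) % N) ((p + N) / N))
      rw [h1, h2]
      exact hU _ _ (hmod p) h3
    · show ((if p % N < p / N then (0 : Fin 3) else if p % N = p / N then 1 else 2) ≠ 2 ∧
          (if (p + N) % N < (p + N) / N then (0 : Fin 3) else if (p + N) % N = (p + N) / N then 1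
            else 2) = 0) ∨
          ((if p % N < p / N then (0 : Fin 3) else if p % N = p / N then 1 else 2) = 2 ∧
          (if (p + N) % N < (p + N) / N then (0 : Fin 3) else if (p + N) % N = (p + N) / N then 1
            else 2) ≠ 0)
      rw [h1, h2]
      by_cases h5 : p % N ≤ p / N
      · left
        rw [if_pos (show p % N < p / N + 1 by omega)]
        refine ⟨?_, rfl⟩
        split_ifs
        · decide
        · decide
        · omega
      · right
        rw [if_neg (by omega), if_neg (by omega), if_neg (by omega)]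
        refine ⟨rfl, ?_⟩
        split_ifs <;> decide
  · intro p hp
    show W.b (f (p % N) (p / N))
    rw [Nat.div_eq_of_lt hp]
    exact hb _ (hmod p)
  · intro p hp hp'
    show W.t (f (p % N) (p / N))
    have h1 : p / N = N - 1 := by
      rw [Nat.div_eq_iff (by omega)]
      have h2 : N * N = (N - 1) * N + N := by
        obtain ⟨K', hK'⟩ := Nat.exists_eq_add_of_le hN
        have h5 : N - 1 = K' := by omega
        rw [h5]
        nth_rewrite 1 [hK']
        ring
      constructor
      · omega
      · omega
    rw [h1]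
    exact ht _ (hmod p)
  · intro p hp
    show decide (p % N + 1 = N) = true ↔ p + 1 = N
    rw [Nat.mod_eq_of_lt hp]
    simp
  · refine ⟨?_, ?_, ?_⟩
    · show decide (0 % N = 0) = true
      simp
    · show (if 0 % N < 0 / N then (0 : Fin 3) else if 0 % N = 0 / N then 1 else 2) = 1
      rw [Nat.zero_mod, Nat.zero_div]
      simp
    · show W.c (f (0 % N) (0 / N))
      rw [Nat.zero_mod, Nat.zero_div]
      exact hc
  · have h2 : N * N - 1 = (N - 1) * N + (N - 1) := by
      obtain ⟨K', hK'⟩ := Nat.exists_eq_add_of_le hN
      have h5 : N - 1 = K' := by omega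
      rw [h5]
      have : N * N = K' * N + N := by
        nth_rewrite 1 [hK']
        ring
      omega
    have h3 : (N * N - 1) % N = N - 1 := by
      rw [h2, Nat.mul_add_mod_self_right, Nat.mod_eq_of_lt (by omega)]
    have h4 : (N * N - 1) / N = N - 1 := by
      rw [h2, Nat.div_eq_iff (by omega)]
      constructor <;> omega
    refine ⟨?_, ?_⟩
    · show decide ((N * N - 1) % N + 1 = N) = true
      rw [h3]
      simp only [decide_eq_true_eq]
      omega
    · show (if (N * N - 1) % N < (N * N - 1) / N then (0 : Fin 3) else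
        if (N * N - 1) % N = (N * N - 1) / N then 1 else 2) = 1
      rw [h3, h4]
      simp

end Pool.Agent.Helper74.W2O
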